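import Pool.Agent.H5Sdp.Upper
import Pool.Agent.H5Ref.Val

/-!
# Semidefinite relaxations and random instances: the lower bound
-/

set_option autoImplicit false

namespace Pool.Agent.H5Sdp

open Matrix Module Pool.Agent.H5Sym Pool.Agent.H5Dich Pool.Agent.H5Lin Pool.Agent.H5Ref

section system

variable {k P m : ℕ} {V : Type}

/-- sums of two members of `Spec` -/
noncomputable def badS [Finite V] (ι : Fin k × Fin P ↪ V) (U : Submodule F2 (V → F2))
    (Spec : Set (Dual F2 U)) : Finset (Fin k → Fin P → F2) := by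
  classical
  exact Finset.univ.filter fun v => ∃ ξ ∈ Spec, ∃ η ∈ Spec, funcH ι U v = ξ + η

theorem badS_card [Finite V] (ι : Fin k × Fin P ↪ V) (U : Submodule F2 (V → F2))
    (hι : ∀ y : Fin k × Fin P → F2, ∃ u ∈ U, ∀ p, u (ι p) = y p) (Spec : Set (Dual F2 U)) (s : ℕ)
    (hSpec : Spec.ncard ≤ s) : (badS ι U Spec).card ≤ s ^ 2 := by
  classical
  have : Finite (V → F2) := Pi.finite
  have : Finite U := Subtype.finite
  have hfinD : Finite (Dual F2 U) := Finite.of_injective (fun q : Dual F2 U => (q : U → F2))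
    DFunLike.coe_injective
  have h1 : ∀ v : badS ι U Spec, ∃ p : Spec × Spec, funcH ι U v.1 = p.1.1 + p.2.1 := by
    intro v
    obtain ⟨ξ, hξ, η, hη, h⟩ := (Finset.mem_filter.1 v.2).2
    exact ⟨(⟨ξ, hξ⟩, ⟨η, hη⟩), h⟩
  choose p hp using h1
  have h2 : Function.Injective p := by
    intro v v' h
    refine Subtype.ext (funcH_inj hι ?_)
    rw [hp, hp, h]
  have h3 := Nat.card_le_card_of_injective p h2
  rw [Nat.card_eq_fintype_card, Fintype.card_coe, Nat.card_prod, Nat.card_coe_set_eq] at h3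
  refine h3.trans ?_
  rw [pow_two]
  exact Nat.mul_le_mul hSpec hSpec

theorem system_of_good [Finite V] (ι : Fin k × Fin P ↪ V) (U : Submodule F2 (V → F2))
    (hι : ∀ y : Fin k × Fin P → F2, ∃ u ∈ U, ∀ p, u (ι p) = y p) (Spec : Set (Dual F2 U))
    {κ t : ℕ} (hκ : 1 < κ) (hk : t + 2 ≤ k) (M : Submodule F2 (Fin k → F2))
    (hM : ∀ h : Fin k → F2, h ≠ 0 → (∀ y ∈ M, ∑ c, h c * y c = 0) →
      t + 2 ≤ (Finset.univ.filter fun c => h c ≠ 0).card)
    (f : Fin k → Fin m → Fin P) (hf : Good t κ (badS ι U Spec) f) :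
    (∀ j j', (∀ c, f c j = f c j') → j = j') ∧
      (0 : Dual F2 (Fin m → Fin k → F2)) ∈ Sml M κ ∧
      (∀ q ∈ Sml (m := m) M κ, ∀ q' ∈ Sml (m := m) M κ, q + q' ∈ Sml (m := m) M (2 * κ)) ∧
      (∀ q ∈ Sml (m := m) M (2 * κ), (∀ u : U, q (lhsH ι f u.1) = 0) → q = 0) ∧
      (∀ q ∈ Sml (m := m) M (2 * κ), (∃ ξ ∈ Spec, ∃ η ∈ Spec, ∀ u : U,
        q (lhsH ι f u.1) = ξ u + η u) → q ∈ Sml (m := m) M κ) ∧
      ∀ (j : Fin m) (h : Dual F2 (Fin k → F2)), (∀ l ∈ M, h l = 0) →
        h.comp (LinearMap.proj j) ∈ Sml (m := m) M κ := by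
  classical
  have : Finite (V → F2) := Pi.finite
  have : Finite U := Subtype.finite
  have hsmall : ∀ b, ∀ q ∈ Sml (m := m) M b, ∀ j, coef q j ≠ 0 →
      t + 2 ≤ (Finset.univ.filter fun c => coef q j c ≠ 0).card := by
    intro b q hq j hj
    refine hM (coef q j) hj fun y hy => ?_
    rw [← coef_single]
    refine hq.1 _ fun j' => ?_
    by_cases h : j' = j
    · subst h
      rwa [Pi.single_eq_same]
    · rw [Pi.single_eq_of_ne h]
      exact M.zero_mem
  refine ⟨fun j j' hjj => ?_, ⟨fun _ _ => rfl, ?_⟩, ?_, ?_, ?_, ?_⟩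
  · by_contra hne
    let h : Fin m → Fin k → F2 := fun i => if i = j ∨ i = j' then 1 else 0
    have hh : ∀ i, h i ≠ 0 → i = j ∨ i = j' := by
      intro i hi
      by_contra hcon
      exact hi (if_neg hcon)
    have hone : (1 : Fin k → F2) ≠ 0 := by
      intro h0
      have := congrFun h0 ⟨0, by omega⟩
      exact one_ne_zero this
    have h1 : supp h = {j, j'} := by
      ext i
      rw [Finset.mem_insert, Finset.mem_singleton, supp, Finset.mem_filter]
      refine ⟨fun hi => hh i hi.2, fun hi => ⟨Finset.mem_univ _, ?_⟩⟩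
      have h2 : h i = 1 := if_pos hi
      rw [h2]
      exact hone
    have h2 : (supp h).card = 2 := by rw [h1, Finset.card_pair hne]
    refine (hf h fun i hi => ?_).2 (Finset.card_pos.1 (by omega)) (by omega) ?_
    · have h3 : h i = 1 := if_pos (hh i hi)
      rw [h3]
      simpa using hk
    · funext c
      have h3 : suppc h c = {j, j'} := by
        ext i
        rw [Finset.mem_insert, Finset.mem_singleton, suppc, Finset.mem_filter]
        refine ⟨fun hi => hh i fun h0 => hi.2 (by rw [h0]; rfl), fun hi => ⟨Finset.mem_univ _, ?_⟩⟩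
        change (if i = j ∨ i = j' then (1 : Fin k → F2) else 0) c ≠ 0
        rw [if_pos hi]
        exact one_ne_zero
      rw [bdH, h3, Finset.sum_pair hne, hjj c, add_self_mod]
      rfl
  · change (supp (0 : Fin m → Fin k → F2)).card < κ
    rw [supp_zero, Finset.card_empty]
    omega
  · rintro q ⟨hq1, hq2⟩ q' ⟨hq1', hq2'⟩
    refine ⟨fun w hw => ?_, ?_⟩
    · rw [LinearMap.add_apply, hq1 w hw, hq1' w hw, add_zero]
    · rw [coef_add]
      have := supp_add (coef q) (coef q')
      omega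
  · intro q hq hq0
    have h0 : bdH f (coef q) = 0 := by
      refine funcH_inj hι (LinearMap.ext fun u => ?_)
      rw [funcH_bd, hq0]
      change 0 = ∑ c, ∑ i, (0 : Fin k → Fin P → F2) c i * u.1 (ι (c, i))
      simp
    have h1 : supp (coef q) = ∅ := by
      by_contra hne
      exact (hf (coef q) (hsmall _ q hq)).2 (Finset.nonempty_iff_ne_empty.2 hne)
        (le_of_lt hq.2) h0
    refine LinearMap.ext fun d => ?_
    rw [coef_apply]
    refine Finset.sum_eq_zero fun j _ => ?_
    have h2 : coef q j = 0 := by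
      by_contra h2
      have : j ∈ supp (coef q) := Finset.mem_filter.2 ⟨Finset.mem_univ _, h2⟩
      rw [h1] at this
      exact absurd this (Finset.notMem_empty j)
    rw [h2]
    simp
  · rintro q hq ⟨ξ, hξ, η, hη, h⟩
    refine ⟨hq.1, ?_⟩
    by_contra hcon
    refine (hf (coef q) (hsmall _ q hq)).1 (not_lt.1 hcon) hq.2
      (Finset.mem_filter.2 ⟨Finset.mem_univ _, ξ, hξ, η, hη, LinearMap.ext fun u => ?_⟩)
    rw [funcH_bd]
    exact h u
  · intro j h hh
    refine ⟨fun w hw => hh _ (hw j), ?_⟩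
    have h4 : supp (coef (h.comp (LinearMap.proj (R := F2) (φ := fun _ : Fin m => Fin k → F2) j))) ⊆
        {j} := by
      intro j' hj'
      rw [Finset.mem_singleton]
      by_contra hne
      refine (Finset.mem_filter.1 hj').2 ?_
      funext c'
      change h ((Pi.single j' (Pi.single c' 1) : Fin m → Fin k → F2) j) = 0
      rw [Pi.single_eq_of_ne (Ne.symm hne), map_zero]
    have h5 := Finset.card_le_card h4
    rw [Finset.card_singleton] at h5
    omega

end system

/-- for good scopes the relaxation does not refute any right-hand sides -/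
theorem not_below {V : Type} [Finite V] {k P m : ℕ} (R : Set (Fin k → F2)) (q₀ : Fin k → F2)
    (M : Submodule F2 (Fin k → F2)) (hqM : ∀ l ∈ M, q₀ + l ∈ R) (ι : Fin k × Fin P ↪ V)
    (U : Submodule F2 (V → F2)) (hι : ∀ y : Fin k × Fin P → F2, ∃ u ∈ U, ∀ p, u (ι p) = y p)
    (I : Type) [Fintype I] [DecidableEq I] (S : SDPRelaxation (pred R) V I)
    (G : U → Matrix I I ℝ) (hG : ∀ u v, G (u + v) = G u * G v)
    (hGp : ∀ x (u : U), S.point (x + u.1) = G u * S.point x * (G u)ᵀ)
    {κ t : ℕ} (hκ : 1 < κ) (hk : t + 2 ≤ k)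
    (hM : ∀ h : Fin k → F2, h ≠ 0 → (∀ y ∈ M, ∑ c, h c * y c = 0) →
      t + 2 ≤ (Finset.univ.filter fun c => h c ≠ 0).card)
    (f : Fin k → Fin m → Fin P)
    (hf : Good t κ (badS ι U {ξ : Dual F2 U | ∃ _ : Fintype U, Sdp G ξ}) f) (w : Fin m → Fin k → F2) :
    ¬ S.Below (inst R q₀ M ι f w) (numCon (inst R q₀ M ι f w)) := by
  classical
  have : Finite (V → F2) := Pi.finite
  have : Finite U := Subtype.finite
  have iU : Fintype U := Fintype.ofFinite U
  have hfinD : Finite (Dual F2 U) := Finite.of_injective (fun q : Dual F2 U => (q : U → F2))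
    DFunLike.coe_injective
  have : Fintype (Dual F2 U) := Fintype.ofFinite _
  have hSpec : {ξ : Dual F2 U | ∃ _ : Fintype U, Sdp G ξ} = {ξ : Dual F2 U | Sdp G ξ} := by
    ext ξ
    constructor
    · rintro ⟨i, hi⟩
      have hi' : i = iU := Subsingleton.elim _ _
      subst hi'
      exact hi
    · intro h
      exact ⟨_, h⟩
  rw [hSpec] at hf
  obtain ⟨hdist, h0, hadd, hinj, hgap, hloc⟩ := system_of_good ι U hι
    {ξ : Dual F2 U | Sdp G ξ} hκ hk M hM f hf
  let A : U →ₗ[F2] (Fin m → Fin k → F2) := (lhsH ι f).comp U.subtype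
  intro hbelow
  rcases Nat.eq_zero_or_pos m with rfl | hm0
  · -- no constraints
    have h1 : ∀ x, numSat (inst R q₀ M ι f w) x = 0 := by
      intro x
      have : IsEmpty {t // inst R q₀ M ι f w t = true ∧
          (fun i => x (t.2.1 i) + t.2.2 i) ∈ (pred R).rel t.1} := by
        refine ⟨fun t => ?_⟩
        obtain ⟨j, -⟩ := inst_true.1 t.2.1
        exact j.elim0
      exact Nat.card_of_isEmpty
    have h2 : numCon (inst R q₀ M ι f w) = 0 := by
      have : IsEmpty {t // inst R q₀ M ι f w t = true} := by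
        refine ⟨fun t => ?_⟩
        obtain ⟨j, -⟩ := inst_true.1 t.2
        exact j.elim0
      exact Nat.card_of_isEmpty
    have h3 := hbelow (S.point 0) (S.point_mem 0) (S.point_psd 0)
    rw [S.obj_point, h1, h2] at h3
    exact lt_irrefl _ h3
  have v0 : V := ι (⟨0, by omega⟩, f ⟨0, by omega⟩ ⟨0, hm0⟩)
  set φ := inst R q₀ M ι f w with hφ
  have hφe : φ = frm (Γ := pred R) v0 ι f {⟨(), (some, q₀)⟩}
      (M.comap (LinearMap.funLeft F2 F2 some)) w := inst_eq R q₀ M ι f w v0
  let μ : U → ℝ := mu A (Sml M κ) w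
  have hμ : ∑ u, μ u = 1 := mu_sum h0 hadd hinj
  let X : U → Matrix I I ℝ := fun u => G u * S.point 0 * (G u)ᵀ
  have hX : ∀ u : U, X u = S.point u.1 := by
    intro u
    have := hGp 0 u
    rw [zero_add] at this
    exact this.symm
  let Y : Matrix I I ℝ := ∑ u, μ u • X u
  have hYpsd : Y.PosSemidef := psd_mu h0 hadd hinj G hgap (S.point 0) (S.point_psd 0)
  have hYaff : Y = Finset.univ.affineCombination ℝ X μ :=
    (Finset.affineCombination_eq_linear_combination _ _ _ hμ).symm
  have hYmem : Y ∈ S.space := by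
    rw [hYaff]
    refine (affineSpan_le.2 (Set.range_subset_iff.2 fun u => ?_) :
      affineSpan ℝ (Set.range X) ≤ S.space) (affineCombination_mem_affineSpan hμ X)
    rw [hX]
    exact S.point_mem _
  have hobj : S.obj φ Y = numCon φ := by
    rw [hYaff, Finset.map_affineCombination _ _ _ hμ,
      Finset.affineCombination_eq_linear_combination _ _ _ hμ]
    have h1 : ∀ u : U, (S.obj φ ∘ X) u =
        (∑ j, dens R M ((LinearMap.proj (R := F2) (φ := fun _ : Fin m => Fin k → F2) j) (A u) +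
          (LinearMap.proj (R := F2) (φ := fun _ : Fin m => Fin k → F2) j) w + q₀)) *
          Nat.card M := by
      intro u
      change S.obj φ (X u) = _
      rw [hX, S.obj_point, numSat, hφe, card_sat R v0 _ f hdist q₀ M w u.1]
      congr 1
      refine Finset.sum_congr rfl fun j _ => ?_
      congr 1
      change (fun c => u.1 (ι (c, f c j))) + q₀ + w j = (fun c => u.1 (ι (c, f c j))) + w j + q₀
      abel
    simp only [h1, smul_eq_mul]
    have h2 : ∀ j, ∑ u, μ u * dens R M
        ((LinearMap.proj (R := F2) (φ := fun _ : Fin m => Fin k → F2) j) (A u) +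
          (LinearMap.proj (R := F2) (φ := fun _ : Fin m => Fin k → F2) j) w + q₀) = 1 := by
      intro j
      have h3 := mu_local (A := A) (w := w) hadd hinj
        (LinearMap.proj (R := F2) (φ := fun _ : Fin m => Fin k → F2) j) M
        (fun y => dens R M (y + q₀)) (fun y l hl => dens_shift R M _ _ _ hl) (hloc j)
      rw [h3, zero_add]
      exact dens_one R M hqM
    calc ∑ u, μ u * ((∑ j, dens R M
          ((LinearMap.proj (R := F2) (φ := fun _ : Fin m => Fin k → F2) j) (A u) +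
          (LinearMap.proj (R := F2) (φ := fun _ : Fin m => Fin k → F2) j) w + q₀)) * Nat.card M)
        = (∑ j, ∑ u, μ u * dens R M
          ((LinearMap.proj (R := F2) (φ := fun _ : Fin m => Fin k → F2) j) (A u) +
          (LinearMap.proj (R := F2) (φ := fun _ : Fin m => Fin k → F2) j) w + q₀)) *
            Nat.card M := by
          rw [Finset.sum_comm, Finset.sum_mul]
          refine Finset.sum_congr rfl fun u _ => ?_
          rw [← Finset.mul_sum]
          ring
      _ = numCon φ := by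
          simp only [h2]
          rw [Finset.sum_const, Finset.card_univ, Fintype.card_fin, nsmul_eq_mul, mul_one, numCon,
            hφe]
          exact (card_total R v0 ι f hdist q₀ M w).symm
  exact absurd hobj (hbelow Y hYmem hYpsd).ne

/-- **The lower bound on average.** -/
theorem avgS {V : Type} [Finite V] {k P m : ℕ} (R : Set (Fin k → F2)) (q₀ : Fin k → F2)
    (M : Submodule F2 (Fin k → F2)) (hqM : ∀ l ∈ M, q₀ + l ∈ R) (ι : Fin k × Fin P ↪ V)
    (U : Submodule F2 (V → F2)) (hι : ∀ y : Fin k × Fin P → F2, ∃ u ∈ U, ∀ p, u (ι p) = y p)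
    (I : Type) [Fintype I] [DecidableEq I] (S : SDPRelaxation (pred R) V I) (hS : S.Equivariant U)
    {κ τ lam : ℕ} (hκ : 2 ≤ κ) (hlam : 1 ≤ lam) (hτ : 2 ≤ τ) (hτk : τ ≤ k)
    (hM : ∀ h : Fin k → F2, h ≠ 0 → (∀ y ∈ M, ∑ c, h c * y c = 0) → τ ≤ {c | h c ≠ 0}.ncard)
    (hP : 4 ^ (τ + k + 1) * lam ^ 2 * κ ^ (τ - 2) * m ^ 2 ≤ P ^ τ)
    (hC : Fintype.card I ≤ 2 ^ (κ - 1)) :
    lam * Nat.card {f : Fin k → Fin m → Fin P // ∃ w,
      S.Below (inst R q₀ M ι f w) (numCon (inst R q₀ M ι f w))} ≤ P ^ (k * m) := by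
  classical
  obtain ⟨t, rfl⟩ : ∃ t, τ = t + 2 := ⟨τ - 2, by omega⟩
  obtain ⟨G, hG, hGp⟩ := hS
  have : Finite (V → F2) := Pi.finite
  have : Finite U := Subtype.finite
  have iU : Fintype U := Fintype.ofFinite U
  have hfinD : Finite (Dual F2 U) := Finite.of_injective (fun q : Dual F2 U => (q : U → F2))
    DFunLike.coe_injective
  have : Fintype (Dual F2 U) := Fintype.ofFinite _
  have hSpec : {ξ : Dual F2 U | ∃ _ : Fintype U, Sdp G ξ} = {ξ : Dual F2 U | Sdp G ξ} := by
    ext ξ
    constructor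
    · rintro ⟨i, hi⟩
      have hi' : i = iU := Subsingleton.elim _ _
      subst hi'
      exact hi
    · intro h
      exact ⟨_, h⟩
  have h0 : ({ξ : Dual F2 U | ∃ _ : Fintype U, Sdp G ξ}).ncard ≤ Fintype.card I := by
    rw [hSpec]
    exact card_proj G hG
  have h1 : Nat.card {f : Fin k → Fin m → Fin P // ∃ w,
      S.Below (inst R q₀ M ι f w) (numCon (inst R q₀ M ι f w))} =
      (Finset.univ.filter fun f : Fin k → Fin m → Fin P => ∃ w,
        S.Below (inst R q₀ M ι f w) (numCon (inst R q₀ M ι f w))).card := by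
    rw [Nat.card_eq_fintype_card, Fintype.card_subtype]
  rw [h1]
  have h2 : 4 * (badS ι U {ξ : Dual F2 U | ∃ _ : Fintype U, Sdp G ξ}).card ≤ 4 ^ κ := by
    obtain ⟨κ', rfl⟩ : ∃ κ', κ = κ' + 1 := ⟨κ - 1, by omega⟩
    have h3 : Fintype.card I ^ 2 ≤ (2 ^ κ') ^ 2 := Nat.pow_le_pow_left hC 2
    have h4 : ((2 : ℕ) ^ κ') ^ 2 = 4 ^ κ' := by rw [← pow_mul, mul_comm, pow_mul]; norm_num
    have h5 := (badS_card ι U hι _ _ h0).trans h3
    rw [h4] at h5
    calc 4 * (badS ι U {ξ : Dual F2 U | ∃ _ : Fintype U, Sdp G ξ}).card ≤ 4 * 4 ^ κ' :=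
          Nat.mul_le_mul_left _ h5
      _ = 4 ^ (κ' + 1) := by rw [pow_succ, mul_comm]
  have h3 := good_card (R := Fin k) (P := P) (m := m) (t := t) (κ := κ) (by omega) hlam (by
      rw [Fintype.card_fin]
      refine le_trans (le_of_eq ?_) hP
      rw [Nat.add_sub_cancel]
      ring) (badS ι U {ξ : Dual F2 U | ∃ _ : Fintype U, Sdp G ξ}) h2
    (Finset.univ.filter fun f : Fin k → Fin m → Fin P => ∃ w,
        S.Below (inst R q₀ M ι f w) (numCon (inst R q₀ M ι f w))) ?_
  · rwa [Fintype.card_fin] at h3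
  · intro f hf hgood
    obtain ⟨w, hw⟩ := (Finset.mem_filter.1 hf).2
    refine not_below R q₀ M hqM ι U hι I S G hG hGp (by omega) hτk ?_ f hgood w hw
    intro h hh hy
    have h4 := hM h hh hy
    have h5 : {c | h c ≠ 0} = ↑(Finset.univ.filter fun c => h c ≠ 0) := by
      ext j
      simp
    rwa [h5, Set.ncard_coe_finset] at h4

end Pool.Agent.H5Sdp
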