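import Pool.Agent.H5Dich.ResistDefs

/-!
# Semidefinite relaxations of constraint satisfaction problems: definitions
-/

set_option autoImplicit false

namespace Pool.Agent.H5Sdp

open Matrix Pool.Agent.H5Dich

/-- the number of the constraints of `φ` which the assignment `x` satisfies -/
noncomputable def numSat {Γ : Lang} {V : Type} (φ : Con Γ V → Bool) (x : V → ZMod 2) : ℕ :=
  Nat.card {t // φ t = true ∧ (fun k => x (t.2.1 k) + t.2.2 k) ∈ Γ.rel t.1}

/-- the number of the constraints of `φ` -/
noncomputable def numCon {Γ : Lang} {V : Type} (φ : Con Γ V → Bool) : ℕ :=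
  Nat.card {t // φ t = true}

/-- A semidefinite relaxation of the problem to maximise the number of satisfied constraints, with
matrices whose rows and columns are indexed by `ι`; the size of the relaxation is the number of
elements of `ι`. One maximises the affine function `obj φ` over the positive semidefinite matrices in
the affine subspace `space`. -/
structure SDPRelaxation (Γ : Lang) (V ι : Type) [Fintype ι] [DecidableEq ι] where
  /-- the affine subspace -/
  space : AffineSubspace ℝ (Matrix ι ι ℝ)
  /-- the matrix that belongs to an assignment -/
  point : (V → ZMod 2) → Matrix ι ι ℝ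
  point_mem : ∀ x, point x ∈ space
  point_psd : ∀ x, (point x).PosSemidef
  /-- the objective function of an instance -/
  obj : (Con Γ V → Bool) → Matrix ι ι ℝ →ᵃ[ℝ] ℝ
  obj_point : ∀ φ x, obj φ (point x) = numSat φ x

namespace SDPRelaxation

variable {Γ : Lang} {V ι : Type} [Fintype ι] [DecidableEq ι] (S : SDPRelaxation Γ V ι)

/-- the value of the relaxation for the instance `φ` is at most `b` -/
def ValueLE (φ : Con Γ V → Bool) (b : ℝ) : Prop :=
  ∀ Y ∈ S.space, Y.PosSemidef → S.obj φ Y ≤ b

/-- the value `b` is not attained by the relaxation for the instance `φ` -/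
def Below (φ : Con Γ V → Bool) (b : ℝ) : Prop :=
  ∀ Y ∈ S.space, Y.PosSemidef → S.obj φ Y < b

/-- The relaxation is equivariant under the group `U` of flips: the group has a linear
representation `G` such that the flip by `u` of an assignment corresponds to the congruence
transformation of the matrices by `G u`. -/
def Equivariant (U : Submodule (ZMod 2) (V → ZMod 2)) : Prop :=
  ∃ G : U → Matrix ι ι ℝ, (∀ u v, G (u + v) = G u * G v) ∧
    ∀ x (u : U), S.point (x + u.1) = G u * S.point x * (G u)ᵀ

end SDPRelaxation

end Pool.Agent.H5Sdp
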