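import Pool.Agent.H5Dich.Resist

/-!
# The density of a relation in a coset
-/

set_option autoImplicit false

namespace Pool.Agent.H5Sdp

open Pool.Agent.H5Sym Pool.Agent.H5Dich

variable {k : ℕ}

theorem dens_shift (R : Set (Fin k → F2)) (M : Submodule F2 (Fin k → F2)) (y q l : Fin k → F2)
    (hl : l ∈ M) : dens R M (y + l + q) = dens R M (y + q) := by
  rw [dens, dens]
  congr 2
  refine Nat.card_congr ((Equiv.addLeft (⟨l, hl⟩ : M)).subtypeEquiv fun a => ?_)
  have h : y + q + (l + a.1) = y + l + q + a.1 := by abel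
  change y + l + q + a.1 ∈ R ↔ y + q + (l + a.1) ∈ R
  rw [h]

theorem dens_one (R : Set (Fin k → F2)) (M : Submodule F2 (Fin k → F2)) {q : Fin k → F2}
    (hq : ∀ m ∈ M, q + m ∈ R) : dens R M q = 1 := by
  have hM : (0 : ℝ) < Nat.card M := by
    have : 0 < Nat.card M := Nat.card_pos
    exact_mod_cast this
  rw [dens, Nat.card_congr (Equiv.subtypeUnivEquiv fun l : M => hq l.1 l.2), div_self hM.ne']

end Pool.Agent.H5Sdp
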