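import Pool.Agent.H5Sdp.Kik
import Pool.Agent.H5Ref.Stm3

/-!
# Piece KIKR: semidefinite relaxations for all predicates that contain a coset of the even vectors

`theorem kikr : S_KIKR` in `Pool/Agent/H5Sdp/Kikr.lean`, namespace `Pool.Agent.H5Sdp` (no double quotes).
-/

set_option autoImplicit false

namespace Pool.Agent.H5Sdp

open Matrix Module Pool.Agent.H5Sym Pool.Agent.H5Dich Pool.Agent.H5Lin Pool.Agent.H5Ref

/-- **KIKR** (about 200 lines; a modification of `Pool/Agent/H5Sdp/Kik.lean`, all of which can be used).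
Space: `kspace T` (ones in the diagonal, entries `Y a b` only depend on `a + b`), points
`Y a b = chi x (a + b)`, equivariance with the same diagonal matrices, all as in `kik`.
For a scope `s : Fin k → V` and `A : Fin k → F2` let `s A = ∑ c, A c • Pi.single (s c) 1`; by the hypothesis
`s A ∈ T` (a sum over a finset). Note `s A + s B = s (A + B)`, `s 0 = 0`.
For a matrix `Y` let `μ_s(v) = 2⁻ᵏ ∑_A sgn (∑ c, A c * v c) * Y 0 (s A)` for `v : Fin k → F2`. This is
linear in `Y`, at the point of `x` it is `1` if `v = x ∘ s` and `0` otherwise, `∑_v μ_s(v) = Y 0 0 = 1`, and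
`μ_s(v) = 4⁻ᵏ ∑_(A, B) sgn (∑ c, (A + B) c * v c) * Y (s A) (s B) ≥ 0` for psd `Y` in the space (the value of
the quadratic form of `Y` at the vector `∑_A sgn (⟨A, v⟩) e_(s A)`, where `Y (s A) (s B) = Y 0 (s (A + B))`).
Objective: `obj φ Y = ∑_(t, φ t = true) ∑_(v, v + σ_t ∈ R) μ_(s_t)(v)` where `t = (s_t, σ_t)`. It is the
number of the satisfied constraints at the points.
If `Y` is psd in the space and `obj φ Y ≥ numCon φ`, then for each `t` with `φ t = true` the inner sum is
`1`, hence `μ_(s_t)(v) = 0` if `v + σ_t ∉ R`. Let `t` be a parity constraint with `lft q φ t = true` and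
scope `s`: then `μ_s(v) = 0` unless `v + σ' ∈ R` for ALL `σ'` with `∑ σ' = ∑ q + sg t`. If
`∑ v ≠ sg t` then the `v + σ'` are all the vectors with sum `∑ q + 1`; they cannot all be in `R`, since
`R` contains all the vectors with sum `∑ q` and `R ≠ univ`. So `μ_s(v) = 0` unless `∑ v = sg t`, and
`Y 0 (vec t) = ∑_v sgn (∑ v) μ_s(v) = sgn (sg t)`. Hence `Y a b = sgn (sg t)` for `b = a + vec t`, and the
potential is constructed as in the theorem `potential` of `Kik.lean` (from its `hedge` on, copy). -/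
def S_KIKR : Prop := ∀ (k : ℕ) (V : Type) [Fintype V] [DecidableEq V] (R : Set (Fin k → F2))
  (q : Fin k → F2) (T : Finset (V → F2)), R ≠ Set.univ → (∀ v ∈ evenM k, q + v ∈ R) →
  (∀ (s : Fin k → V) (A : Finset (Fin k)), ∑ c ∈ A, Pi.single (s c) 1 ∈ T) →
  ∃ S : SDPRelaxation (pred R) V T, (∀ U, S.Equivariant U) ∧
    ∀ φ : Con (pred R) V → Bool, ¬ S.Below φ (numCon φ) →
      ∃ c : (V → F2) → F2, ∀ t, lft q φ t = true → ∀ y ∈ T, y + H5Ref.vec t ∈ T →
        c (y + H5Ref.vec t) = c y + sg t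

end Pool.Agent.H5Sdp
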