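import Pool.Agent.H5Sdp.KikOdd
import Pool.Agent.H5Sdp.Stm4

/-!
# The semidefinite upper bound in the final form
-/

set_option autoImplicit false

namespace Pool.Agent.H5Sdp

open Matrix Module Pool.Agent.H5Sym Pool.Agent.H5Dich Pool.Agent.H5Lin Pool.Agent.H5Ref

/-- the sums of the unit vectors of at most `k` variables -/
def mono (k P : ℕ) : Finset (Fin k × Fin P → F2) :=
  (Finset.univ : Finset ((Fin k → Fin k × Fin P) × Finset (Fin k))).image
    fun p => ∑ c ∈ p.2, Pi.single (p.1 c) 1

theorem mem_mono {k P : ℕ} (s : Fin k → Fin k × Fin P) (A : Finset (Fin k)) :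
    ∑ c ∈ A, Pi.single (s c) 1 ∈ mono k P :=
  Finset.mem_image.2 ⟨(s, A), Finset.mem_univ _, rfl⟩

theorem card_mono (k P : ℕ) : (mono k P).card ≤ (2 * (k * P)) ^ k := by
  refine Finset.card_image_le.trans (le_of_eq ?_)
  rw [Finset.card_univ, Fintype.card_prod, Fintype.card_fun, Fintype.card_prod, Fintype.card_fin,
    Fintype.card_fin, Fintype.card_finset, Fintype.card_fin, mul_pow 2, mul_comm]

theorem even_cond {h P l m : ℕ} (hl : 1 ≤ l) (hP : 2 * l ≤ P)
    (hm : (10 * (2 * h : ℕ) * l * Real.logb 2 P) ^ 2 * (2 * P / l : ℝ) ^ (2 * h) ≤ (m : ℝ) ^ 2) :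
    10 * h * 2 ^ h * l * (P / l : ℝ) ^ h * Real.logb 2 P ≤ m := by
  have hl0 : (0 : ℝ) < l := by exact_mod_cast hl
  have hP2 : (2 * l : ℝ) ≤ P := by exact_mod_cast hP
  have hP0 : (0 : ℝ) < P := by linarith
  have hlog : 0 ≤ Real.logb 2 P := Real.logb_nonneg one_lt_two (by
    have : (1 : ℝ) ≤ l := by exact_mod_cast hl
    linarith)
  have h8 : (10 * h * 2 ^ h * l * (P / l : ℝ) ^ h * Real.logb 2 P) ^ 2 ≤ (m : ℝ) ^ 2 := by
    refine le_trans ?_ hm
    push_cast
    have e : (10 * h * 2 ^ h * l * (P / l : ℝ) ^ h * Real.logb 2 P) ^ 2 =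
        (10 * h * l * Real.logb 2 P) ^ 2 * (2 * P / l : ℝ) ^ (2 * h) := by
      rw [mul_div_assoc, mul_comm 2 h, pow_mul (2 * (P / l : ℝ)), mul_pow 2 (P / l : ℝ) h]
      ring
    rw [e]
    have h9 : (0 : ℝ) ≤ (h : ℝ) := Nat.cast_nonneg _
    gcongr
    linarith
  exact (abs_le_of_sq_le_sq' h8 (Nat.cast_nonneg _)).2

/-- **The upper bound for semidefinite relaxations, all arities and all predicates which contain a
coset of the even vectors.** -/
theorem upperKAll (hDIM : S_DIM3) (hK : S_KIKR) (k P l : ℕ) (R : Set (Fin k → ZMod 2))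
    (q : Fin k → ZMod 2) (hk : 2 ≤ k) (hR : R ≠ Set.univ) (hq : ∀ v ∈ evenM k, q + v ∈ R)
    (hl : 1 ≤ l) (hP : 2 * l ≤ P) :
    ∃ (I : Type) (_ : Fintype I) (_ : DecidableEq I)
      (S : SDPRelaxation (pred R) (Fin k × Fin P) I),
      Fintype.card I ≤ P ^ (20 * k ^ 2 * l) ∧ (∀ U, S.Equivariant U) ∧
      ∀ m lam : ℕ, (10 * k * l * Real.logb 2 P) ^ 2 * (2 * P / l : ℝ) ^ k ≤ (m : ℝ) ^ 2 →
        (Even k ∨ 3200 * (k * lam * Real.logb 2 P) ^ 2 * 4 ^ k * l ≤ P) →
        lam * Nat.card {f : Fin k → Fin m → Fin P //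
          2 ^ (-(m : ℝ) / 2) * (2 ^ k) ^ m < (Nat.card {w //
            ¬ S.Below (inst R q (evenM k) (.refl _) f w)
              (numCon (inst R q (evenM k) (.refl _) f w))} : ℝ)} ≤ P ^ (k * m) := by
  classical
  rcases Nat.even_or_odd' k with ⟨h, rfl | rfl⟩
  · obtain ⟨S, hS1, hS2⟩ := lev h P l (by omega)
    have hSN : S.card = levN h P l := hS1
    let T : Finset (Fin (2 * h) × Fin P → F2) := mono (2 * h) P ∪ S
    obtain ⟨K, hKe, hKp⟩ := hK (2 * h) (Fin (2 * h) × Fin P) R q T hR hq
      fun s A => Finset.mem_union_left _ (mem_mono s A)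
    refine ⟨T, inferInstance, inferInstance, K, ?_, hKe, fun m lam hm _ => ?_⟩
    · rw [Fintype.card_coe]
      refine (Finset.card_union_le _ _).trans ((Nat.add_le_add (card_mono _ _) le_rfl).trans
        (size_all hk hl (by omega) ?_))
      rw [hSN]
      refine (levN_le (by omega) hl (by omega)).trans (Nat.pow_le_pow_right (by omega) ?_)
      have : h * l * 1 ≤ h * l * h := Nat.mul_le_mul_left _ (by omega)
      nlinarith
    · have hgood : ∀ f : Fin (2 * h) → Fin m → Fin P, (Nat.card {w //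
            ¬ K.Below (inst R q (evenM (2 * h)) (.refl _) f w)
              (numCon (inst R q (evenM (2 * h)) (.refl _) f w))} : ℝ) ≤
          2 ^ (-(m : ℝ) / 2) * (2 ^ (2 * h)) ^ m := by
        intro f
        refine (rhs_card h P l (by omega) (by omega) S hSN hS2 m f _ fun w hw => ?_).trans
          (mul_le_mul_of_nonneg_right (Real.rpow_le_rpow_of_exponent_le one_le_two
            (exponent_le (by omega) hl hP (even_cond hl hP hm))) (by positivity))
        obtain ⟨c, hc⟩ := hKp _ hw
        rw [lft_inst] at hc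
        refine ⟨c, fun j y hy hyz => ?_⟩
        let t0 : Con (pred (even (2 * h))) (Fin (2 * h) × Fin P) :=
          ⟨(), (fun i : Fin (2 * h) => (i, f i j),
            ((0 : Fin (2 * h) → F2) + (w j + (0 : Fin (2 * h) → F2)) : Fin (2 * h) → F2))⟩
        have h2 := hc t0 (inst_true.2 ⟨j, 0, (evenM (2 * h)).zero_mem, rfl⟩) y
          (Finset.mem_union_right _ hy) (Finset.mem_union_right _ hyz)
        have h3 : sg t0 = ∑ i, w j i := by
          change ∑ i : Fin (2 * h), ((0 : Fin (2 * h) → F2) + (w j + (0 : Fin (2 * h) → F2))) i = _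
          rw [zero_add, add_zero]
        rw [h3] at h2
        exact h2
      have h10 : Nat.card {f : Fin (2 * h) → Fin m → Fin P //
          2 ^ (-(m : ℝ) / 2) * (2 ^ (2 * h)) ^ m < (Nat.card {w //
            ¬ K.Below (inst R q (evenM (2 * h)) (.refl _) f w)
              (numCon (inst R q (evenM (2 * h)) (.refl _) f w))} : ℝ)} = 0 := by
        rw [Nat.card_eq_zero]
        exact Or.inl ⟨fun f => absurd f.2 (not_lt.2 (hgood f.1))⟩
      rw [h10, mul_zero]
      exact Nat.zero_le _
  · obtain ⟨S, hS1, hS2, hS3⟩ := lev2 h P l (by omega)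
    have hSN : S.card = levN h P l := hS1
    let V := Fin (2 * h + 1) × Fin P
    let T1 : Finset (V → F2) := (S ×ˢ S).image fun p => emb p.1 + emb p.2
    let T2 : Finset (V → F2) := ((S ×ˢ S) ×ˢ (Finset.univ : Finset (Fin P))).image
      fun p => emb p.1.1 + emb p.1.2 + Pi.single (0, p.2) 1
    let T : Finset (V → F2) := mono (2 * h + 1) P ∪ (T1 ∪ T2)
    have hT1 : ∀ y ∈ S, ∀ y' ∈ S, emb y + emb y' ∈ T := by
      intro y hy y' hy'
      refine Finset.mem_union_right _ (Finset.mem_union_left _ ?_)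
      exact Finset.mem_image.2 ⟨(y, y'), Finset.mem_product.2 ⟨hy, hy'⟩, rfl⟩
    have hT2 : ∀ y ∈ S, ∀ y' ∈ S, ∀ r : Fin P, emb y + emb y' + Pi.single (0, r) 1 ∈ T := by
      intro y hy y' hy' r
      refine Finset.mem_union_right _ (Finset.mem_union_right _ ?_)
      exact Finset.mem_image.2 ⟨((y, y'), r),
        Finset.mem_product.2 ⟨Finset.mem_product.2 ⟨hy, hy'⟩, Finset.mem_univ _⟩, rfl⟩
    obtain ⟨K, hKe, hKp⟩ := hK (2 * h + 1) V R q T hR hq
      fun s A => Finset.mem_union_left _ (mem_mono s A)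
    refine ⟨T, inferInstance, inferInstance, K, ?_, hKe, fun m lam hm hlam => ?_⟩
    · rw [Fintype.card_coe]
      refine (Finset.card_union_le _ _).trans ((Nat.add_le_add (card_mono _ _) le_rfl).trans
        (size_all hk hl (by omega) ?_))
      have hT12 : (T1 ∪ T2).card ≤ levN h P l ^ 2 + levN h P l ^ 2 * P := by
        refine (Finset.card_union_le _ _).trans (Nat.add_le_add ?_ ?_)
        · refine Finset.card_image_le.trans ?_
          rw [Finset.card_product, hSN, sq]
        · refine Finset.card_image_le.trans ?_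
          rw [Finset.card_product, Finset.card_product, hSN, sq, Finset.card_univ, Fintype.card_fin]
      refine hT12.trans (le_trans ?_ ((sizeK_odd (h := h) (by omega) hl (by omega : 2 ≤ P)).trans
        (Nat.pow_le_pow_right (by omega) ?_)))
      · omega
      · nlinarith [Nat.zero_le (h ^ 2 * l), Nat.zero_le (h * l)]
    · obtain ⟨s, hs1, hs2, hs3, hs4⟩ := dens3 (by omega) hl hP hm
      have hlam' : 3200 * ((2 * h + 1 : ℕ) * lam * Real.logb 2 P) ^ 2 * 4 ^ (2 * h + 1) * l ≤ P := by
        refine hlam.resolve_left ?_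
        rw [Nat.not_even_iff_odd]
        exact ⟨h, rfl⟩
      have hbad := bad3 beta (m := m) (s := s) (lam := lam) hl hP (by omega) S hS1 hS3
        (hs4 lam hlam')
      have hgood : ∀ f : Fin (2 * h + 1) → Fin m → Fin P,
          16 * s * bet S (fun j => uz fun c => f c.succ j) (f 0) ≤ m ^ 2 * levE h P l →
          (Nat.card {w //
              ¬ K.Below (inst R q (evenM (2 * h + 1)) (.refl _) f w)
                (numCon (inst R q (evenM (2 * h + 1)) (.refl _) f w))} : ℝ) ≤
            2 ^ (-(m : ℝ) / 2) * (2 ^ (2 * h + 1)) ^ m := ?_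
      · refine le_trans (Nat.mul_le_mul_left _ ?_) hbad
        exact Nat.card_le_card_of_injective
          (fun f => (⟨f.1, fun hb => absurd f.2 (not_lt.2 (hgood f.1 hb))⟩ :
            {f : Fin (2 * h + 1) → Fin m → Fin P //
              ¬ 16 * s * bet S (fun j => uz fun c => f c.succ j) (f 0) ≤ m ^ 2 * levE h P l}))
          (fun f f' hff => Subtype.ext (congrArg (fun q => q.1) hff))
      intro f hb
      refine count3 hDIM (by omega) S hS1 hS2 f hs1 hs2 hs3 hb _ fun w hw => ?_
      obtain ⟨c, hc⟩ := hKp _ hw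
      rw [lft_inst] at hc
      refine ⟨fun y y' => c (emb y + emb y'), fun j j' _ hr y hy y' hy' hz hz' => ?_⟩
      let t : Fin m → Con (pred (even (2 * h + 1))) (Fin (2 * h + 1) × Fin P) := fun j =>
        ⟨(), (fun i : Fin (2 * h + 1) => (i, f i j),
          ((0 : Fin (2 * h + 1) → F2) + (w j + (0 : Fin (2 * h + 1) → F2)) : Fin (2 * h + 1) → F2))⟩
      have ht : ∀ j, inst (even (2 * h + 1)) 0 (evenM (2 * h + 1)) (.refl _) f w (t j) = true :=
        fun j => inst_true.2 ⟨j, 0, (evenM (2 * h + 1)).zero_mem, rfl⟩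
      have hsg : ∀ j, sg (t j) = ∑ i, w j i := by
        intro j
        change ∑ i : Fin (2 * h + 1), ((0 : Fin (2 * h + 1) → F2) +
          (w j + (0 : Fin (2 * h + 1) → F2))) i = _
        rw [zero_add, add_zero]
      have hvec : ∀ j, H5Ref.vec (t j) = Pi.single (0, f 0 j) 1 + emb (uz fun c => f c.succ j) := by
        intro j
        rw [emb_uz]
        exact Fin.sum_univ_succ fun c : Fin (2 * h + 1) =>
          (Pi.single (c, f c j) 1 : Fin (2 * h + 1) × Fin P → ZMod 2)
      have q1 : emb y + emb y' + H5Ref.vec (t j) =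
          emb (y + uz fun c => f c.succ j) + emb y' + Pi.single (0, f 0 j) 1 := by
        rw [hvec, emb_add]
        abel
      have p1 := hc (t j) (ht j) (emb y + emb y') (hT1 y hy y' hy') (by
        rw [q1]
        exact hT2 _ hz _ hy' _)
      rw [q1] at p1
      have q2 : emb (y + uz fun c => f c.succ j) + emb y' +
          (Pi.single (0, f 0 j) 1 : Fin (2 * h + 1) × Fin P → ZMod 2) + H5Ref.vec (t j') =
          emb (y + uz fun c => f c.succ j) + emb (y' + uz fun c => f c.succ j') := by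
        rw [hvec, ← hr, emb_add y']
        have e9 := add_self_mod (Pi.single (0, f 0 j) 1 : Fin (2 * h + 1) × Fin P → F2)
        calc emb (y + uz fun c => f c.succ j) + emb y' + Pi.single (0, f 0 j) 1 +
              (Pi.single (0, f 0 j) 1 + emb (uz fun c => f c.succ j')) =
              emb (y + uz fun c => f c.succ j) + (emb y' + emb (uz fun c => f c.succ j')) +
                (Pi.single (0, f 0 j) 1 + Pi.single (0, f 0 j) 1) := by abel
          _ = _ := by rw [e9, add_zero]
      have p2 := hc (t j') (ht j')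
        (emb (y + uz fun c => f c.succ j) + emb y' + Pi.single (0, f 0 j) 1)
        (hT2 _ hz _ hy' _) (by
          rw [q2]
          exact hT1 _ hz _ hz')
      rw [q2, p1, hsg, hsg] at p2
      rw [← add_assoc]
      exact p2

end Pool.Agent.H5Sdp
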