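import Pool.Agent.H5Sdp.Avg
import Pool.Agent.H5Ref.Clean

/-!
# A semidefinite relaxation that refutes random parity constraints
-/

set_option autoImplicit false

namespace Pool.Agent.H5Sdp

open Matrix Module Pool.Agent.H5Sym Pool.Agent.H5Dich Pool.Agent.H5Lin Pool.Agent.H5Ref

section relaxation

variable {V : Type} [Fintype V] [DecidableEq V] {k : ℕ}

/-- the character -/
noncomputable def chi (x y : V → F2) : ℝ := sgn ℝ (∑ v, x v * y v)

theorem chi_add_right (x y y' : V → F2) : chi x (y + y') = chi x y * chi x y' := by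
  rw [chi, chi, chi, ← sgn_add]
  congr 1
  simp only [Pi.add_apply, mul_add, Finset.sum_add_distrib]

theorem chi_add_left (x x' y : V → F2) : chi (x + x') y = chi x y * chi x' y := by
  rw [chi, chi, chi, ← sgn_add]
  congr 1
  simp only [Pi.add_apply, add_mul, Finset.sum_add_distrib]

theorem chi_self (x y : V → F2) : chi x y * chi x y = 1 := sgn_mul_self ℝ _

variable (T : Finset (V → F2))

/-- the space of the matrices with ones in the diagonal whose entries only depend on the sum of the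
row and the column -/
def kspace : AffineSubspace ℝ (Matrix T T ℝ) where
  carrier := {Y | (∀ a, Y a a = 1) ∧ ∀ a b c d : T, a.1 + b.1 = c.1 + d.1 → Y a b = Y c d}
  smul_vsub_vadd_mem' := by
    rintro r Y Z W ⟨h1, h1'⟩ ⟨h2, h2'⟩ ⟨h3, h3'⟩
    refine ⟨fun a => ?_, fun a b c d h => ?_⟩
    · change r * (Y a a - Z a a) + W a a = 1
      rw [h1, h2, h3]
      ring
    · change r * (Y a b - Z a b) + W a b = r * (Y c d - Z c d) + W c d
      rw [h1' a b c d h, h2' a b c d h, h3' a b c d h]

theorem mem_kspace (Y : Matrix T T ℝ) : Y ∈ kspace T ↔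
    (∀ a, Y a a = 1) ∧ ∀ a b c d : T, a.1 + b.1 = c.1 + d.1 → Y a b = Y c d := Iff.rfl

theorem numSat_eq (φ : Con (pred (even k)) V → Bool) (x : V → F2) :
    (numSat φ x : ℝ) = ∑ t with φ t = true, (1 + sgn ℝ (sg t) * chi x (vec t)) / 2 := by
  classical
  rw [numSat, Nat.card_eq_fintype_card, Fintype.card_subtype, Finset.card_filter]
  push_cast
  rw [Finset.sum_filter]
  refine Finset.sum_congr rfl fun t _ => ?_
  by_cases ht : φ t = true
  · rw [if_pos ht]
    have h1 : sgn ℝ (sg t) * chi x (vec t) = sgn ℝ (∑ c, (x (t.2.1 c) + t.2.2 c)) := by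
      have h2 : ∑ v, x v * (vec t) v = ∑ c, x (t.2.1 c) := vec_add_single x t.2.1
      rw [chi, h2, ← sgn_add, Finset.sum_add_distrib, add_comm]
      rfl
    rw [h1]
    have h3 : ((fun c => x (t.2.1 c) + t.2.2 c) ∈ (pred (even k)).rel t.1) ↔
        ∑ c, (x (t.2.1 c) + t.2.2 c) = 0 := Iff.rfl
    rcases F2.cases (∑ c, (x (t.2.1 c) + t.2.2 c)) with h4 | h4
    · rw [if_pos ⟨ht, h3.2 h4⟩, h4, sgn_zero]
      norm_num
    · rw [if_neg, h4, sgn_one]
      · norm_num
      · rintro ⟨-, h5⟩
        rw [h3.1 h5] at h4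
        exact zero_ne_one h4
  · rw [if_neg ht, if_neg]
    rintro ⟨h5, -⟩
    exact ht h5

theorem numCon_eq (φ : Con (pred (even k)) V → Bool) :
    (numCon φ : ℝ) = ∑ t with φ t = true, (1 : ℝ) := by
  classical
  rw [numCon, Nat.card_eq_fintype_card, Fintype.card_subtype, Finset.sum_const, nsmul_eq_mul,
    mul_one]

variable {T}

/-- the relaxation -/
noncomputable def kik (e : Con (pred (even k)) V → T) (e' : Con (pred (even k)) V → T)
    (he : ∀ t, (e t).1 + (e' t).1 = vec t) : SDPRelaxation (pred (even k)) V T where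
  space := kspace T
  point x := Matrix.of fun a b => chi x (a.1 + b.1)
  point_mem x := by
    rw [mem_kspace]
    refine ⟨fun a => ?_, fun a b c d h => ?_⟩
    · change chi x (a.1 + a.1) = 1
      rw [chi_add_right, chi_self]
    · change chi x (a.1 + b.1) = chi x (c.1 + d.1)
      rw [h]
  point_psd x := by
    have h1 : (Matrix.of fun a b : T => chi x (a.1 + b.1)) =
        vecMulVec (fun a : T => chi x a.1) (star fun a : T => chi x a.1) := by
      ext a b
      rw [Matrix.of_apply, vecMulVec_apply, chi_add_right]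
      rfl
    rw [h1]
    exact posSemidef_vecMulVec_self_star _
  obj φ :=
    { toFun := fun Y => ∑ t with φ t = true, (1 + sgn ℝ (sg t) * Y (e t) (e' t)) / 2
      linear := ∑ t with φ t = true, (sgn ℝ (sg t) / 2) • Matrix.entryLinearMap ℝ ℝ (e t) (e' t)
      map_vadd' := by
        intro Y Z
        simp only [vadd_eq_add, LinearMap.sum_apply, LinearMap.smul_apply, smul_eq_mul,
          Matrix.entryLinearMap_apply, Matrix.add_apply]
        rw [← Finset.sum_add_distrib]
        refine Finset.sum_congr rfl fun t _ => ?_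
        ring }
  obj_point φ x := by
    rw [numSat_eq]
    refine Finset.sum_congr rfl fun t _ => ?_
    change (1 + sgn ℝ (sg t) * chi x ((e t).1 + (e' t).1)) / 2 = _
    rw [he]

theorem kik_equivariant (e : Con (pred (even k)) V → T) (e' : Con (pred (even k)) V → T)
    (he : ∀ t, (e t).1 + (e' t).1 = vec t) (U : Submodule F2 (V → F2)) :
    (kik e e' he).Equivariant U := by
  refine ⟨fun u => Matrix.diagonal fun a : T => chi u.1 a.1, fun u v => ?_, fun x u => ?_⟩
  · rw [Matrix.diagonal_mul_diagonal]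
    exact congrArg Matrix.diagonal (funext fun a => chi_add_left u.1 v.1 a.1)
  · rw [Matrix.diagonal_transpose]
    ext a b
    rw [Matrix.mul_diagonal, Matrix.diagonal_mul]
    change chi (x + u.1) (a.1 + b.1) = chi u.1 a.1 * chi x (a.1 + b.1) * chi u.1 b.1
    rw [chi_add_left, chi_add_right u.1]
    ring

/-- entries of absolute value one -/
theorem psd_one {Y : Matrix T T ℝ} (hY : Y.PosSemidef) (h1 : ∀ a, Y a a = 1) {a b : T} {ε : ℝ}
    (hε : ε * ε = 1) (hab : Y a b = ε) (c : T) : Y a c = ε * Y b c := by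
  classical
  have hs : ∀ a b, Y b a = Y a b := fun a b => by
    have := hY.isHermitian.apply a b
    simpa using this
  let v : T → ℝ := Pi.single a 1 - ε • Pi.single b 1
  have h2 : ∀ c, (Y *ᵥ v) c = Y c a - ε * Y c b := by
    intro c
    simp only [v, mulVec_sub, mulVec_smul, Pi.sub_apply, Pi.smul_apply, smul_eq_mul,
      mulVec_single_one, col_apply]
  have h3 : star v ⬝ᵥ Y *ᵥ v = 0 := by
    have h4 : star v = v := by
      funext c
      exact star_trivial _
    rw [h4]
    have h5 : v ⬝ᵥ Y *ᵥ v = (Y *ᵥ v) a - ε * (Y *ᵥ v) b := by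
      change (Pi.single a 1 - ε • Pi.single b 1 : T → ℝ) ⬝ᵥ (Y *ᵥ v) = _
      rw [sub_dotProduct, smul_dotProduct, single_one_dotProduct, single_one_dotProduct, smul_eq_mul]
    rw [h5, h2, h2, h1, h1, hs a b, hab]
    linear_combination -hε
  have h4 := (hY.dotProduct_mulVec_zero_iff v).1 h3
  have h5 := congrFun h4 c
  rw [h2, Pi.zero_apply] at h5
  rw [hs c a, hs c b]
  linarith

theorem psd_le {Y : Matrix T T ℝ} (hY : Y.PosSemidef) (h1 : ∀ a, Y a a = 1) (a b : T) {ε : ℝ}
    (hε : ε * ε = 1) : ε * Y a b ≤ 1 := by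
  classical
  have hs : ∀ a b, Y b a = Y a b := fun a b => by
    have := hY.isHermitian.apply a b
    simpa using this
  let v : T → ℝ := Pi.single a 1 - ε • Pi.single b 1
  have h2 : ∀ c, (Y *ᵥ v) c = Y c a - ε * Y c b := by
    intro c
    simp only [v, mulVec_sub, mulVec_smul, Pi.sub_apply, Pi.smul_apply, smul_eq_mul,
      mulVec_single_one, col_apply]
  have h3 : 0 ≤ star v ⬝ᵥ Y *ᵥ v := hY.dotProduct_mulVec_nonneg v
  have h4 : star v = v := by
    funext c
    exact star_trivial _
  rw [h4] at h3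
  have h5 : v ⬝ᵥ Y *ᵥ v = (Y *ᵥ v) a - ε * (Y *ᵥ v) b := by
    change (Pi.single a 1 - ε • Pi.single b 1 : T → ℝ) ⬝ᵥ (Y *ᵥ v) = _
    rw [sub_dotProduct, smul_dotProduct, single_one_dotProduct, single_one_dotProduct, smul_eq_mul]
  rw [h5, h2, h2, h1, h1, hs a b] at h3
  have h6 : 1 - ε * Y a b - ε * (Y a b - ε * 1) = 2 - 2 * (ε * Y a b) := by
    linear_combination hε
  linarith

/-- If the relaxation does not refute, then there is a potential. -/
theorem potential (e : Con (pred (even k)) V → T) (e' : Con (pred (even k)) V → T)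
    (he : ∀ t, (e t).1 + (e' t).1 = vec t) (φ : Con (pred (even k)) V → Bool)
    (h : ¬ (kik e e' he).Below φ (numCon φ)) :
    ∃ c : (V → F2) → F2, ∀ t, φ t = true → ∀ y ∈ T, y + vec t ∈ T → c (y + vec t) = c y + sg t := by
  classical
  rw [SDPRelaxation.Below] at h
  push Not at h
  obtain ⟨Y, hY, hpsd, hobj⟩ := h
  obtain ⟨hd, hc⟩ := (mem_kspace T Y).1 hY
  have hs : ∀ a b, Y b a = Y a b := fun a b => by
    have := hpsd.isHermitian.apply a b
    simpa using this
  have hobj' : (numCon φ : ℝ) ≤ ∑ t with φ t = true, (1 + sgn ℝ (sg t) * Y (e t) (e' t)) / 2 := hobj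
  rw [numCon_eq] at hobj'
  have hle : ∀ t ∈ Finset.univ.filter (fun t : Con (pred (even k)) V => φ t = true),
      (1 + sgn ℝ (sg t) * Y (e t) (e' t)) / 2 ≤ 1 := by
    intro t _
    have := psd_le hpsd hd (e t) (e' t) (sgn_mul_self ℝ (sg t))
    linarith
  have heq := (Finset.sum_eq_sum_iff_of_le hle).1 (le_antisymm (Finset.sum_le_sum hle) hobj')
  have hedge : ∀ t, φ t = true → ∀ a b : T, b.1 = a.1 + vec t → Y a b = sgn ℝ (sg t) := by
    intro t ht a b hab
    have h1 := heq t (Finset.mem_filter.2 ⟨Finset.mem_univ _, ht⟩)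
    have h2 : sgn ℝ (sg t) * Y (e t) (e' t) = 1 := by linarith
    have h3 : Y (e t) (e' t) = sgn ℝ (sg t) := by
      have h4 := sgn_mul_self ℝ (sg t)
      calc Y (e t) (e' t) = (sgn ℝ (sg t) * sgn ℝ (sg t)) * Y (e t) (e' t) := by rw [h4, one_mul]
        _ = sgn ℝ (sg t) * (sgn ℝ (sg t) * Y (e t) (e' t)) := by ring
        _ = sgn ℝ (sg t) := by rw [h2, mul_one]
    rw [← h3]
    refine hc a b _ _ ?_
    rw [he, hab, ← add_assoc, add_self_mod, zero_add]
  let r : Setoid T :=
    { r := fun a b => Y a b * Y a b = 1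
      iseqv :=
        { refl := fun a => by rw [hd, mul_one]
          symm := fun {a b} hab => by rw [hs a b]; exact hab
          trans := fun {a b c} hab hbc => by
            have h1 := psd_one hpsd hd hab rfl c
            rw [h1]
            calc Y a b * Y b c * (Y a b * Y b c) = (Y a b * Y a b) * (Y b c * Y b c) := by ring
              _ = 1 := by rw [hab, hbc, mul_one] } }
  let c : T → F2 := fun a => if Y (Quotient.out (Quotient.mk r a)) a = 1 then 0 else 1
  have hcY : ∀ a, Y (Quotient.out (Quotient.mk r a)) a = sgn ℝ (c a) := by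
    intro a
    have h1 : Y (Quotient.out (Quotient.mk r a)) a * Y (Quotient.out (Quotient.mk r a)) a = 1 :=
      Quotient.mk_out (s := r) a
    by_cases h2 : Y (Quotient.out (Quotient.mk r a)) a = 1
    · have h3 : c a = 0 := if_pos h2
      rw [h3, sgn_zero, h2]
    · have h3 : c a = 1 := if_neg h2
      rw [h3, sgn_one]
      have h4 : (Y (Quotient.out (Quotient.mk r a)) a - 1) *
          (Y (Quotient.out (Quotient.mk r a)) a + 1) = 0 := by linear_combination h1
      rcases mul_eq_zero.1 h4 with h5 | h5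
      · exact absurd (sub_eq_zero.1 h5) h2
      · linarith
  have hsg : ∀ a b : F2, sgn ℝ a = sgn ℝ b → a = b := by
    intro a b hab
    rcases F2.cases a with rfl | rfl <;> rcases F2.cases b with rfl | rfl
    · rfl
    · rw [sgn_zero, sgn_one] at hab
      norm_num at hab
    · rw [sgn_zero, sgn_one] at hab
      norm_num at hab
    · rfl
  refine ⟨fun y => if hy : y ∈ T then c ⟨y, hy⟩ else 0, fun t ht y hy hy' => ?_⟩
  dsimp only
  rw [dif_pos hy, dif_pos hy']
  have h1 := hedge t ht ⟨y, hy⟩ ⟨y + vec t, hy'⟩ rfl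
  have h2 : Quotient.mk r ⟨y, hy⟩ = Quotient.mk r ⟨y + vec t, hy'⟩ := by
    refine Quotient.sound ?_
    change Y ⟨y, hy⟩ ⟨y + vec t, hy'⟩ * Y ⟨y, hy⟩ ⟨y + vec t, hy'⟩ = 1
    rw [h1]
    exact sgn_mul_self ℝ _
  have h3 := hcY ⟨y, hy⟩
  have h4 := hcY ⟨y + vec t, hy'⟩
  rw [← h2] at h4
  set ρ := Quotient.out (Quotient.mk r ⟨y, hy⟩) with hρ
  refine hsg _ _ ?_
  rw [sgn_add, ← h4, ← h3]
  have h5 := psd_one hpsd hd (sgn_mul_self ℝ (sg t)) h1 ρ
  rw [hs ρ ⟨y, hy⟩, hs ρ ⟨y + vec t, hy'⟩] at h5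
  rw [h5]
  have h6 := sgn_mul_self ℝ (sg t)
  linear_combination (-Y ρ ⟨y + vec t, hy'⟩) * h6

end relaxation

end Pool.Agent.H5Sdp
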