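import Pool.Agent.H5Sdp.Kik

/-!
# The semidefinite upper bound
-/

set_option autoImplicit false

namespace Pool.Agent.H5Sdp

open Matrix Module Pool.Agent.H5Sym Pool.Agent.H5Dich Pool.Agent.H5Lin Pool.Agent.H5Ref

/-- the number of the right-hand sides with a potential -/
theorem rhs_card (h P l : ℕ) (hh : 1 ≤ h) (hl : l < P)
    (S : Finset (Fin (2 * h) × Fin P → F2)) (hSN : S.card = levN h P l)
    (hS2 : ∀ i : Fin (2 * h) → Fin P,
      (S.filter fun y => y + ∑ c, Pi.single (c, i c) 1 ∈ S).card =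
        (2 * h).choose h * (P - 1).choose l ^ (2 * h)) (m : ℕ) (f : Fin (2 * h) → Fin m → Fin P)
    (Acc : (Fin m → Fin (2 * h) → F2) → Prop)
    (hacc : ∀ w, Acc w → ∃ c : (Fin (2 * h) × Fin P → ZMod 2) → ZMod 2,
      ∀ j, ∀ y ∈ S, y + ∑ i, Pi.single (i, f i j) 1 ∈ S →
        c (y + ∑ i, Pi.single (i, f i j) 1) = c y + ∑ i, w j i) :
    (Nat.card {w // Acc w} : ℝ) ≤
      2 ^ (Real.logb 2 (levN h P l) * (P ^ 2 / ((P - l) * (l + 1)) : ℝ) ^ h - m) *
        (2 ^ (2 * h)) ^ m := by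
  classical
  let z : Fin m → Fin (2 * h) × Fin P → F2 := fun j => ∑ c, Pi.single (c, f c j) 1
  set α : ℝ := ((P - l) * (l + 1) / P ^ 2 : ℝ) ^ h with hα
  have hlP : (l : ℝ) < P := by exact_mod_cast hl
  have hP0 : (0 : ℝ) < P := lt_of_le_of_lt (Nat.cast_nonneg l) hlP
  have hPl : (0 : ℝ) < P - l := by linarith
  have hα0 : 0 < α := by positivity
  have hN0 : 0 < levN h P l :=
    Nat.mul_pos (Nat.choose_pos (by omega)) (Nat.pow_pos (Nat.mul_pos
      (Nat.choose_pos (by omega)) (Nat.choose_pos (by omega))))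
  have hSne : S.Nonempty := Finset.card_pos.1 (by rw [hSN]; exact hN0)
  have h1 := dim hyp (Fin (2 * h) × Fin P) S m z α hα0 hSne (fun j => by
    rw [hSN, hα, lev_alpha h P l hl]
    have := hS2 fun c => f c j
    exact_mod_cast this.symm.le)
  set A := {b : Fin m → ZMod 2 // ∃ c : (Fin (2 * h) × Fin P → ZMod 2) → ZMod 2,
    ∀ j, ∀ y ∈ S, y + z j ∈ S → c (y + z j) = c y + b j} with hA
  obtain ⟨k', hk'⟩ : ∃ k', 2 * h = k' + 1 := ⟨2 * h - 1, by omega⟩
  have hinj : Nat.card {w // Acc w} ≤ Nat.card (A × (Fin m → Fin k' → F2)) := by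
    refine Nat.card_le_card_of_injective (fun w => (⟨fun j => ∑ i, w.1 j i, hacc w.1 w.2⟩,
      fun j i => w.1 j (Fin.cast hk'.symm i.castSucc))) ?_
    intro w w' hww
    refine Subtype.ext (funext fun j => funext fun i => ?_)
    have e1 := congrFun (congrArg Subtype.val (congrArg Prod.fst hww)) j
    have e2 := congrFun (congrArg Prod.snd hww) j
    dsimp only at e1 e2
    have e3 : ∀ v : Fin (2 * h) → F2, ∑ i, v i =
        ∑ i : Fin k', v (Fin.cast hk'.symm i.castSucc) + v (Fin.cast hk'.symm (Fin.last k')) := by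
      intro v
      have e4 : ∑ i, v i = ∑ i : Fin (k' + 1), v (Fin.cast hk'.symm i) :=
        (Fintype.sum_equiv (finCongr hk'.symm) _ _ fun i => rfl).symm
      rw [e4, Fin.sum_univ_castSucc]
    rw [e3, e3] at e1
    have e5 : ∀ i : Fin k', w.1 j (Fin.cast hk'.symm i.castSucc) =
        w'.1 j (Fin.cast hk'.symm i.castSucc) := fun i => congrFun e2 i
    simp only [e5] at e1
    have e6 := add_left_cancel e1
    have e7 : ∀ i' : Fin (k' + 1), w.1 j (Fin.cast hk'.symm i') = w'.1 j (Fin.cast hk'.symm i') := by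
      intro i'
      refine Fin.lastCases ?_ ?_ i'
      · exact e6
      · exact e5
    exact e7 (Fin.cast hk' i)
  have hcard : (Nat.card (A × (Fin m → Fin k' → F2)) : ℝ) = Nat.card A * (2 ^ k') ^ m := by
    rw [Nat.card_prod, Nat.card_eq_fintype_card (α := Fin m → Fin k' → F2), Fintype.card_fun,
      Fintype.card_fun, ZMod.card, Fintype.card_fin, Fintype.card_fin]
    push_cast
    rfl
  have h4 : (Nat.card {w // Acc w} : ℝ) ≤ Nat.card A * (2 ^ k') ^ m := by
    rw [← hcard]
    exact_mod_cast hinj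
  have h5 : Real.logb 2 S.card / α =
      Real.logb 2 (levN h P l) * (P ^ 2 / ((P - l) * (l + 1)) : ℝ) ^ h := by
    rw [hSN, hα, div_eq_mul_inv, ← inv_pow, inv_div]
  rw [h5] at h1
  refine h4.trans ((mul_le_mul_of_nonneg_right h1 (by positivity)).trans (le_of_eq ?_))
  rw [Real.rpow_sub two_pos, Real.rpow_natCast, hk', pow_succ (2 : ℝ) k',
    mul_pow ((2 : ℝ) ^ k') (2 : ℝ) m]
  have h6 : (0 : ℝ) < 2 ^ m := by positivity
  field_simp

/-- **The upper bound for semidefinite relaxations.** -/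
theorem upperK (h P l : ℕ) (hh : 1 ≤ h) (hl : 1 ≤ l) (hP : 2 * l ≤ P) :
    ∃ (κ : Type) (_ : Fintype κ) (_ : DecidableEq κ)
      (S : SDPRelaxation (pred (even (2 * h))) (Fin (2 * h) × Fin P) κ),
      Fintype.card κ ≤ P ^ (40 * h ^ 2 * l) ∧ (∀ U, S.Equivariant U) ∧
      ∀ (m : ℕ) (f : Fin (2 * h) → Fin m → Fin P),
        10 * h * 2 ^ h * l * (P / l : ℝ) ^ h * Real.logb 2 P ≤ m →
        (Nat.card {w // ¬ S.Below (inst (even (2 * h)) 0 (evenM (2 * h)) (.refl _) f w)
          (numCon (inst (even (2 * h)) 0 (evenM (2 * h)) (.refl _) f w))} : ℝ) ≤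
          2 ^ (-(m : ℝ) / 2) * (2 ^ (2 * h)) ^ m := by
  classical
  obtain ⟨S, hS1, hS2⟩ := lev h P l (by omega)
  have hSN : S.card = levN h P l := hS1
  let V := Fin (2 * h) × Fin P
  let g : (Fin h → V) → V → F2 := fun s => ∑ c, Pi.single (s c) 1
  let T : Finset (V → F2) := S ∪ Finset.univ.image g
  have hT : T.card ≤ P ^ (40 * h ^ 2 * l) := by
    have h1 : T.card ≤ levN h P l + (2 * h * P) ^ h := by
      refine (Finset.card_union_le _ _).trans (Nat.add_le_add hSN.le ?_)
      refine Finset.card_image_le.trans ?_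
      rw [Finset.card_univ, Fintype.card_fun, Fintype.card_prod, Fintype.card_fin, Fintype.card_fin,
        Fintype.card_fin]
    refine h1.trans (le_trans ?_ (size_le hh hl (by omega : 2 ≤ P)))
    rw [add_comm]
    refine Nat.add_le_add ?_ ?_
    · calc (2 * h * P) ^ h ≤ (2 * (2 * h * P)) ^ h := Nat.pow_le_pow_left (by omega) _
        _ ≤ (2 * (2 * h * P)) ^ (2 * h) := by
            refine Nat.pow_le_pow_right ?_ (by omega)
            have : 1 * 1 ≤ 2 * h * P := Nat.mul_le_mul (by omega) (by omega)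
            omega
    · calc levN h P l ≤ 2 * levN h P l + 1 := by omega
        _ ≤ (2 * levN h P l + 1) ^ 4 := Nat.le_self_pow (by norm_num) _
        _ ≤ _ := by omega
  have hsplit : ∀ s : Fin (2 * h) → V, ∃ a ∈ T, a + ∑ c, Pi.single (s c) 1 ∈ T := by
    intro s
    let s1 : Fin h → V := fun c => s (Fin.cast (two_mul h).symm (Fin.castAdd h c))
    let s2 : Fin h → V := fun c => s (Fin.cast (two_mul h).symm (Fin.natAdd h c))
    have h1 : (∑ c, Pi.single (s c) 1 : V → F2) = g s1 + g s2 := by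
      have e1 : (∑ c, Pi.single (s c) 1 : V → F2) =
          ∑ c : Fin (h + h), Pi.single (s (Fin.cast (two_mul h).symm c)) 1 :=
        (Fintype.sum_equiv (finCongr (two_mul h).symm) _ _ fun c => rfl).symm
      rw [e1, Fin.sum_univ_add]
    refine ⟨g s1, Finset.mem_union_right _ (Finset.mem_image_of_mem _ (Finset.mem_univ _)), ?_⟩
    rw [h1, ← add_assoc, add_self_mod, zero_add]
    exact Finset.mem_union_right _ (Finset.mem_image_of_mem _ (Finset.mem_univ _))
  choose a ha ha' using hsplit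
  let e : Con (pred (even (2 * h))) V → T := fun t => ⟨a t.2.1, ha t.2.1⟩
  let e' : Con (pred (even (2 * h))) V → T := fun t => ⟨a t.2.1 + ∑ c, Pi.single (t.2.1 c) 1,
    ha' t.2.1⟩
  have he : ∀ t, (e t).1 + (e' t).1 = vec t := by
    intro t
    change a t.2.1 + (a t.2.1 + ∑ c, Pi.single (t.2.1 c) 1) = _
    rw [← add_assoc, add_self_mod, zero_add]
    rfl
  refine ⟨T, inferInstance, inferInstance, kik e e' he, ?_, kik_equivariant e e' he,
    fun m f hm => ?_⟩
  · rw [Fintype.card_coe]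
    exact hT
  · refine (rhs_card h P l hh (by omega) S hSN hS2 m f _ fun w hw => ?_).trans
      (mul_le_mul_of_nonneg_right (Real.rpow_le_rpow_of_exponent_le one_le_two
        (exponent_le hh hl hP hm)) (by positivity))
    obtain ⟨c, hc⟩ := potential e e' he _ hw
    refine ⟨c, fun j y hy hyz => ?_⟩
    let t0 : Con (pred (even (2 * h))) (Fin (2 * h) × Fin P) :=
      ⟨(), (fun i : Fin (2 * h) => (i, f i j),
        ((0 : Fin (2 * h) → F2) + (w j + (0 : Fin (2 * h) → F2)) : Fin (2 * h) → F2))⟩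
    have h2 := hc t0 (inst_true.2 ⟨j, 0, (evenM (2 * h)).zero_mem, rfl⟩) y
      (Finset.mem_union_left _ hy) (Finset.mem_union_left _ hyz)
    have h3 : sg t0 = ∑ i, w j i := by
      change ∑ i : Fin (2 * h), ((0 : Fin (2 * h) → F2) + (w j + (0 : Fin (2 * h) → F2))) i = _
      rw [zero_add, add_zero]
    rw [h3] at h2
    exact h2

end Pool.Agent.H5Sdp
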