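import Pool.Agent.H5Sdp.KikMain
import Pool.Agent.H5Ref.Final2

/-!
# The semidefinite upper bound: odd arity
-/

set_option autoImplicit false

namespace Pool.Agent.H5Sdp

open Matrix Module Pool.Agent.H5Sym Pool.Agent.H5Dich Pool.Agent.H5Lin Pool.Agent.H5Ref

theorem sizeK_odd {h P l : ℕ} (hh : 1 ≤ h) (hl : 1 ≤ l) (hP : 2 ≤ P) :
    levN h P l ^ 2 + levN h P l ^ 2 * P + ((2 * h + 1) * P) ^ h + ((2 * h + 1) * P) ^ (h + 1) ≤
      P ^ (60 * h ^ 2 * l) := by
  have hP1 : 1 ≤ P := by omega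
  have hN := levN_le hh hl hP
  have hl2 : h ^ 2 * 1 ≤ h ^ 2 * l := Nat.mul_le_mul_left _ hl
  have hh2 : h * 1 ≤ h * h := Nat.mul_le_mul_left _ hh
  have hhl : h * l * 1 ≤ h * l * h := Nat.mul_le_mul_left _ hh
  have h3 : 1 * 1 ≤ h * l := Nat.mul_le_mul hh hl
  have e3 : levN h P l ^ 2 ≤ P ^ (10 * h * l) := by
    calc levN h P l ^ 2 ≤ (P ^ (5 * h * l)) ^ 2 := Nat.pow_le_pow_left hN 2
      _ = P ^ (10 * h * l) := by rw [← pow_mul]; congr 1; ring
  have e1 : 2 * h + 1 ≤ P ^ (2 * h + 1) := by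
    calc 2 * h + 1 ≤ 2 ^ (2 * h + 1) := Nat.lt_two_pow_self.le
      _ ≤ P ^ (2 * h + 1) := Nat.pow_le_pow_left hP _
  have a1 : levN h P l ^ 2 ≤ P ^ (58 * h ^ 2 * l) :=
    e3.trans (Nat.pow_le_pow_right hP1 (by nlinarith))
  have a2 : levN h P l ^ 2 * P ≤ P ^ (58 * h ^ 2 * l) := by
    refine (Nat.mul_le_mul_right _ e3).trans ?_
    rw [← pow_succ]
    exact Nat.pow_le_pow_right hP1 (by nlinarith)
  have a4 : ((2 * h + 1) * P) ^ (h + 1) ≤ P ^ (58 * h ^ 2 * l) := by
    calc ((2 * h + 1) * P) ^ (h + 1) ≤ (P ^ (2 * h + 1) * P) ^ (h + 1) :=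
          Nat.pow_le_pow_left (Nat.mul_le_mul_right _ e1) _
      _ = P ^ ((2 * h + 2) * (h + 1)) := by rw [← pow_succ, ← pow_mul]
      _ ≤ P ^ (58 * h ^ 2 * l) := Nat.pow_le_pow_right hP1 (by nlinarith)
  have a3 : ((2 * h + 1) * P) ^ h ≤ P ^ (58 * h ^ 2 * l) :=
    (Nat.pow_le_pow_right (Nat.mul_pos (by omega) (by omega)) (by omega)).trans a4
  calc _ ≤ P ^ (58 * h ^ 2 * l) + P ^ (58 * h ^ 2 * l) + P ^ (58 * h ^ 2 * l) +
        P ^ (58 * h ^ 2 * l) := Nat.add_le_add (Nat.add_le_add (Nat.add_le_add a1 a2) a3) a4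
    _ = P ^ (58 * h ^ 2 * l) * 2 ^ 2 := by ring
    _ ≤ P ^ (58 * h ^ 2 * l) * P ^ 2 := Nat.mul_le_mul_left _ (Nat.pow_le_pow_left hP _)
    _ = P ^ (58 * h ^ 2 * l + 2) := (pow_add _ _ _).symm
    _ ≤ P ^ (60 * h ^ 2 * l) := by
        refine Nat.pow_le_pow_right hP1 ?_
        have : 1 * 1 ≤ h ^ 2 * l := Nat.mul_le_mul (Nat.one_le_pow _ _ hh) hl
        nlinarith

/-- **The upper bound for semidefinite relaxations, odd arity.** -/
theorem upperKOdd (hDIM : S_DIM3) (h P l : ℕ) (hh : 1 ≤ h) (hl : 1 ≤ l) (hP : 2 * l ≤ P) :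
    ∃ (κ : Type) (_ : Fintype κ) (_ : DecidableEq κ)
      (S : SDPRelaxation (pred (even (2 * h + 1))) (Fin (2 * h + 1) × Fin P) κ),
      Fintype.card κ ≤ P ^ (60 * h ^ 2 * l) ∧ (∀ U, S.Equivariant U) ∧
      ∀ m lam : ℕ, (10 * (2 * h + 1 : ℕ) * l * Real.logb 2 P) ^ 2 * (2 * P / l : ℝ) ^ (2 * h + 1) ≤
          (m : ℝ) ^ 2 →
        3200 * ((2 * h + 1 : ℕ) * lam * Real.logb 2 P) ^ 2 * 4 ^ (2 * h + 1) * l ≤ P →
        lam * Nat.card {f : Fin (2 * h + 1) → Fin m → Fin P //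
          2 ^ (-(m : ℝ) / 2) * (2 ^ (2 * h + 1)) ^ m < (Nat.card {w //
            ¬ S.Below (inst (even (2 * h + 1)) 0 (evenM (2 * h + 1)) (.refl _) f w)
              (numCon (inst (even (2 * h + 1)) 0 (evenM (2 * h + 1)) (.refl _) f w))} : ℝ)} ≤
          P ^ ((2 * h + 1) * m) := by
  classical
  obtain ⟨S, hS1, hS2, hS3⟩ := lev2 h P l (by omega)
  have hSN : S.card = levN h P l := hS1
  let V := Fin (2 * h + 1) × Fin P
  let g : (Fin h → V) → V → F2 := fun s => ∑ c, Pi.single (s c) 1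
  let g' : (Fin (h + 1) → V) → V → F2 := fun s => ∑ c, Pi.single (s c) 1
  let T1 : Finset (V → F2) := (S ×ˢ S).image fun p => emb p.1 + emb p.2
  let T2 : Finset (V → F2) := ((S ×ˢ S) ×ˢ (Finset.univ : Finset (Fin P))).image
    fun p => emb p.1.1 + emb p.1.2 + Pi.single (0, p.2) 1
  let T : Finset (V → F2) := T1 ∪ T2 ∪ Finset.univ.image g ∪ Finset.univ.image g'
  have hT1 : ∀ y ∈ S, ∀ y' ∈ S, emb y + emb y' ∈ T := by
    intro y hy y' hy'
    refine Finset.mem_union_left _ (Finset.mem_union_left _ (Finset.mem_union_left _ ?_))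
    exact Finset.mem_image.2 ⟨(y, y'), Finset.mem_product.2 ⟨hy, hy'⟩, rfl⟩
  have hT2 : ∀ y ∈ S, ∀ y' ∈ S, ∀ r : Fin P, emb y + emb y' + Pi.single (0, r) 1 ∈ T := by
    intro y hy y' hy' r
    refine Finset.mem_union_left _ (Finset.mem_union_left _ (Finset.mem_union_right _ ?_))
    exact Finset.mem_image.2 ⟨((y, y'), r),
      Finset.mem_product.2 ⟨Finset.mem_product.2 ⟨hy, hy'⟩, Finset.mem_univ _⟩, rfl⟩
  have hT3 : ∀ s, g s ∈ T := fun s => Finset.mem_union_left _ (Finset.mem_union_right _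
    (Finset.mem_image_of_mem _ (Finset.mem_univ _)))
  have hT4 : ∀ s, g' s ∈ T := fun s => Finset.mem_union_right _
    (Finset.mem_image_of_mem _ (Finset.mem_univ _))
  have hT : T.card ≤ P ^ (60 * h ^ 2 * l) := by
    refine le_trans ?_ (sizeK_odd hh hl (by omega : 2 ≤ P))
    refine (Finset.card_union_le _ _).trans (Nat.add_le_add ?_ ?_)
    · refine (Finset.card_union_le _ _).trans (Nat.add_le_add ?_ ?_)
      · refine (Finset.card_union_le _ _).trans (Nat.add_le_add ?_ ?_)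
        · refine Finset.card_image_le.trans ?_
          rw [Finset.card_product, hSN, sq]
        · refine Finset.card_image_le.trans ?_
          rw [Finset.card_product, Finset.card_product, hSN, sq, Finset.card_univ, Fintype.card_fin]
      · refine Finset.card_image_le.trans ?_
        rw [Finset.card_univ, Fintype.card_fun, Fintype.card_prod, Fintype.card_fin,
          Fintype.card_fin, Fintype.card_fin]
    · refine Finset.card_image_le.trans ?_
      rw [Finset.card_univ, Fintype.card_fun, Fintype.card_prod, Fintype.card_fin,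
        Fintype.card_fin, Fintype.card_fin]
  have hsplit : ∀ s : Fin (2 * h + 1) → V, ∃ a ∈ T, a + ∑ c, Pi.single (s c) 1 ∈ T := by
    intro s
    have e0 : h + (h + 1) = 2 * h + 1 := by omega
    let s1 : Fin h → V := fun c => s (Fin.cast e0 (Fin.castAdd (h + 1) c))
    let s2 : Fin (h + 1) → V := fun c => s (Fin.cast e0 (Fin.natAdd h c))
    have h1 : (∑ c, Pi.single (s c) 1 : V → F2) = g s1 + g' s2 := by
      have e1 : (∑ c, Pi.single (s c) 1 : V → F2) =
          ∑ c : Fin (h + (h + 1)), Pi.single (s (Fin.cast e0 c)) 1 :=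
        (Fintype.sum_equiv (finCongr e0) _ _ fun c => rfl).symm
      rw [e1, Fin.sum_univ_add]
    refine ⟨g s1, hT3 _, ?_⟩
    rw [h1, ← add_assoc, add_self_mod, zero_add]
    exact hT4 _
  choose a ha ha' using hsplit
  let e : Con (pred (even (2 * h + 1))) V → T := fun t => ⟨a t.2.1, ha t.2.1⟩
  let e' : Con (pred (even (2 * h + 1))) V → T := fun t =>
    ⟨a t.2.1 + ∑ c, Pi.single (t.2.1 c) 1, ha' t.2.1⟩
  have he : ∀ t, (e t).1 + (e' t).1 = vec t := by
    intro t
    change a t.2.1 + (a t.2.1 + ∑ c, Pi.single (t.2.1 c) 1) = _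
    rw [← add_assoc, add_self_mod, zero_add]
    rfl
  refine ⟨T, inferInstance, inferInstance, kik e e' he, ?_, kik_equivariant e e' he,
    fun m lam hm hlam => ?_⟩
  · rw [Fintype.card_coe]
    exact hT
  · obtain ⟨s, hs1, hs2, hs3, hs4⟩ := dens3 hh hl hP hm
    have hbad := bad3 beta (m := m) (s := s) (lam := lam) hl hP (by omega) S hS1 hS3 (hs4 lam hlam)
    have hgood : ∀ f : Fin (2 * h + 1) → Fin m → Fin P,
        16 * s * bet S (fun j => uz fun c => f c.succ j) (f 0) ≤ m ^ 2 * levE h P l →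
        (Nat.card {w //
            ¬ (kik e e' he).Below (inst (even (2 * h + 1)) 0 (evenM (2 * h + 1)) (.refl _) f w)
              (numCon (inst (even (2 * h + 1)) 0 (evenM (2 * h + 1)) (.refl _) f w))} : ℝ) ≤
          2 ^ (-(m : ℝ) / 2) * (2 ^ (2 * h + 1)) ^ m := ?_
    · refine le_trans (Nat.mul_le_mul_left _ ?_) hbad
      exact Nat.card_le_card_of_injective
        (fun f => (⟨f.1, fun hb => absurd f.2 (not_lt.2 (hgood f.1 hb))⟩ :
          {f : Fin (2 * h + 1) → Fin m → Fin P //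
            ¬ 16 * s * bet S (fun j => uz fun c => f c.succ j) (f 0) ≤ m ^ 2 * levE h P l}))
        (fun f f' hff => Subtype.ext (congrArg (fun q => q.1) hff))
    intro f hb
    refine count3 hDIM (by omega) S hS1 hS2 f hs1 hs2 hs3 hb _ fun w hw => ?_
    obtain ⟨c, hc⟩ := potential e e' he _ hw
    refine ⟨fun y y' => c (emb y + emb y'), fun j j' _ hr y hy y' hy' hz hz' => ?_⟩
    let t : Fin m → Con (pred (even (2 * h + 1))) (Fin (2 * h + 1) × Fin P) := fun j =>
      ⟨(), (fun i : Fin (2 * h + 1) => (i, f i j),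
        ((0 : Fin (2 * h + 1) → F2) + (w j + (0 : Fin (2 * h + 1) → F2)) : Fin (2 * h + 1) → F2))⟩
    have ht : ∀ j, inst (even (2 * h + 1)) 0 (evenM (2 * h + 1)) (.refl _) f w (t j) = true :=
      fun j => inst_true.2 ⟨j, 0, (evenM (2 * h + 1)).zero_mem, rfl⟩
    have hsg : ∀ j, sg (t j) = ∑ i, w j i := by
      intro j
      change ∑ i : Fin (2 * h + 1), ((0 : Fin (2 * h + 1) → F2) +
        (w j + (0 : Fin (2 * h + 1) → F2))) i = _
      rw [zero_add, add_zero]
    have hvec : ∀ j, H5Ref.vec (t j) = Pi.single (0, f 0 j) 1 + emb (uz fun c => f c.succ j) := by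
      intro j
      rw [emb_uz]
      exact Fin.sum_univ_succ fun c : Fin (2 * h + 1) =>
        (Pi.single (c, f c j) 1 : Fin (2 * h + 1) × Fin P → ZMod 2)
    -- the first step
    have q1 : emb y + emb y' + H5Ref.vec (t j) =
        emb (y + uz fun c => f c.succ j) + emb y' + Pi.single (0, f 0 j) 1 := by
      rw [hvec, emb_add]
      abel
    have p1 := hc (t j) (ht j) (emb y + emb y') (hT1 y hy y' hy') (by
      rw [q1]
      exact hT2 _ hz _ hy' _)
    rw [q1] at p1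
    have q2 : emb (y + uz fun c => f c.succ j) + emb y' + (Pi.single (0, f 0 j) 1 : Fin (2 * h + 1) × Fin P → ZMod 2) + H5Ref.vec (t j') =
        emb (y + uz fun c => f c.succ j) + emb (y' + uz fun c => f c.succ j') := by
      rw [hvec, ← hr, emb_add y']
      have e9 := add_self_mod (Pi.single (0, f 0 j) 1 : Fin (2 * h + 1) × Fin P → F2)
      calc emb (y + uz fun c => f c.succ j) + emb y' + Pi.single (0, f 0 j) 1 +
            (Pi.single (0, f 0 j) 1 + emb (uz fun c => f c.succ j')) =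
            emb (y + uz fun c => f c.succ j) + (emb y' + emb (uz fun c => f c.succ j')) +
              (Pi.single (0, f 0 j) 1 + Pi.single (0, f 0 j) 1) := by abel
        _ = _ := by rw [e9, add_zero]
    have p2 := hc (t j') (ht j') (emb (y + uz fun c => f c.succ j) + emb y' + Pi.single (0, f 0 j) 1)
      (hT2 _ hz _ hy' _) (by
        rw [q2]
        exact hT1 _ hz _ hz')
    rw [q2, p1, hsg, hsg] at p2
    rw [← add_assoc]
    exact p2

end Pool.Agent.H5Sdp
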