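import Pool.Agent.H5Sdp.Stm4

/-!
# Piece KIKR: semidefinite relaxations with local distributions
-/

set_option autoImplicit false

namespace Pool.Agent.H5Sdp

open Matrix Module Pool.Agent.H5Sym Pool.Agent.H5Dich Pool.Agent.H5Lin Pool.Agent.H5Ref

section kikr

variable {V : Type} [Fintype V] [DecidableEq V] {k : ℕ}

/-- the vector of a part of a scope -/
def sv (s : Fin k → V) (A : Fin k → F2) : V → F2 := ∑ c, Pi.single (s c) (A c)

theorem sv_add (s : Fin k → V) (A B : Fin k → F2) : sv s A + sv s B = sv s (A + B) := by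
  rw [sv, sv, sv, ← Finset.sum_add_distrib]
  refine Finset.sum_congr rfl fun c _ => ?_
  rw [Pi.add_apply, Pi.single_add]

theorem sv_zero (s : Fin k → V) : sv s (0 : Fin k → F2) = 0 := by
  rw [sv]
  refine Finset.sum_eq_zero fun c _ => ?_
  rw [Pi.zero_apply, Pi.single_zero]

theorem chi_sv (x : V → F2) (s : Fin k → V) (A : Fin k → F2) :
    chi x (sv s A) = chi A (fun c => x (s c)) := by
  rw [chi, chi]
  congr 1
  simp only [sv, Finset.sum_apply, Finset.mul_sum]
  rw [Finset.sum_comm]
  refine Finset.sum_congr rfl fun c _ => ?_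
  rw [Finset.sum_eq_single (s c)]
  · rw [Pi.single_eq_same, mul_comm]
  · intro v _ hv
    rw [Pi.single_eq_of_ne hv, mul_zero]
  · intro h
    exact absurd (Finset.mem_univ _) h

theorem sv_mem {T : Finset (V → F2)}
    (hT : ∀ (s : Fin k → V) (A : Finset (Fin k)), ∑ c ∈ A, Pi.single (s c) 1 ∈ T)
    (s : Fin k → V) (A : Fin k → F2) : sv s A ∈ T := by
  have h1 : sv s A = ∑ c ∈ Finset.univ.filter (fun c => A c = 1),
      (Pi.single (s c) 1 : V → F2) := by
    rw [sv, Finset.sum_filter]
    refine Finset.sum_congr rfl fun c _ => ?_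
    rcases F2.cases (A c) with h | h
    · rw [h, Pi.single_zero, if_neg (by decide)]
    · rw [h, if_pos rfl]
  rw [h1]
  exact hT s _

theorem chi_comm' (x y : V → F2) : chi x y = chi y x := by
  rw [chi, chi]
  congr 1
  exact Finset.sum_congr rfl fun v _ => mul_comm _ _

theorem eq_of_add_zero {v w : Fin k → F2} (h : v + w = 0) : v = w := by
  have h1 := add_self_mod (M := Fin k → F2) w
  calc v = v + (w + w) := by rw [h1, add_zero]
    _ = (v + w) + w := (add_assoc _ _ _).symm
    _ = w := by rw [h, zero_add]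

theorem sum_chi (w : Fin k → F2) :
    ∑ A : Fin k → F2, chi A w = if w = 0 then (2 : ℝ) ^ k else 0 := by
  split_ifs with h
  · have h1 : ∀ A : Fin k → F2, chi A w = 1 := by
      intro A
      have h2 : ∑ v, A v * w v = 0 := Finset.sum_eq_zero fun v _ => by
        rw [h, Pi.zero_apply, mul_zero]
      rw [chi, h2, sgn_zero]
    rw [Finset.sum_congr rfl (fun A _ => h1 A), Finset.sum_const, Finset.card_univ,
      Fintype.card_fun, ZMod.card, Fintype.card_fin, nsmul_eq_mul, mul_one]
    push_cast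
    rfl
  · obtain ⟨c, hc⟩ : ∃ c, w c ≠ 0 := by
      by_contra h2
      push Not at h2
      exact h (funext h2)
    have hc1 : w c = 1 := (F2.cases _).resolve_left hc
    have h3 : ∑ A : Fin k → F2, chi A w = ∑ A : Fin k → F2, chi (A + Pi.single c 1) w :=
      (Fintype.sum_equiv (Equiv.addRight (Pi.single c 1)) _ _ fun u => rfl).symm
    have h4 : chi (Pi.single c 1 : Fin k → F2) w = -1 := by
      have h5 : ∑ v, (Pi.single c 1 : Fin k → F2) v * w v = 1 := by
        rw [Finset.sum_eq_single c]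
        · rw [Pi.single_eq_same, hc1, mul_one]
        · intro v _ hv
          rw [Pi.single_eq_of_ne hv, zero_mul]
        · intro h
          exact absurd (Finset.mem_univ _) h
      rw [chi, h5, sgn_one]
    simp only [chi_add_left, h4, mul_neg, mul_one, Finset.sum_neg_distrib] at h3
    linarith

theorem sum_chi' (A : Fin k → F2) :
    ∑ v : Fin k → F2, chi A v = if A = 0 then (2 : ℝ) ^ k else 0 := by
  rw [← sum_chi A]
  exact Finset.sum_congr rfl fun v _ => chi_comm' A v

variable {T : Finset (V → F2)} (hT : ∀ (s : Fin k → V) (A : Fin k → F2), sv s A ∈ T)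

/-- the element of `T` -/
def eT (s : Fin k → V) (A : Fin k → F2) : T := ⟨sv s A, hT s A⟩

/-- the local distributions -/
noncomputable def muL (s : Fin k → V) (v : Fin k → F2) : Matrix T T ℝ →ₗ[ℝ] ℝ :=
  ((2 : ℝ) ^ k)⁻¹ • ∑ A : Fin k → F2,
    chi A v • Matrix.entryLinearMap ℝ ℝ (eT hT s 0) (eT hT s A)

theorem muL_apply (s : Fin k → V) (v : Fin k → F2) (Y : Matrix T T ℝ) :
    muL hT s v Y = ((2 : ℝ) ^ k)⁻¹ * ∑ A : Fin k → F2, chi A v * Y (eT hT s 0) (eT hT s A) := by
  simp only [muL, LinearMap.smul_apply, LinearMap.sum_apply, smul_eq_mul,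
    Matrix.entryLinearMap_apply]

theorem muL_point (s : Fin k → V) (v : Fin k → F2) (x : V → F2) :
    muL hT s v (Matrix.of fun a b : T => chi x (a.1 + b.1)) =
      if v = fun c => x (s c) then 1 else 0 := by
  rw [muL_apply]
  have h1 : ∀ A : Fin k → F2, chi A v *
      (Matrix.of fun a b : T => chi x (a.1 + b.1)) (eT hT s 0) (eT hT s A) =
        chi A (v + fun c => x (s c)) := by
    intro A
    change chi A v * chi x (sv s 0 + sv s A) = _
    rw [sv_zero, zero_add, chi_sv, chi_add_right]
  rw [Finset.sum_congr rfl fun A _ => h1 A, sum_chi]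
  by_cases h : v = fun c => x (s c)
  · rw [if_pos h, if_pos, inv_mul_cancel₀]
    · positivity
    · rw [← h]
      exact add_self_mod v
  · rw [if_neg h, if_neg, mul_zero]
    intro h2
    exact h (eq_of_add_zero h2)

theorem muL_inv (s : Fin k → V) (A : Fin k → F2) (Y : Matrix T T ℝ) :
    ∑ v : Fin k → F2, chi A v * muL hT s v Y = Y (eT hT s 0) (eT hT s A) := by
  have h1 : ∀ v : Fin k → F2, chi A v * muL hT s v Y =
      ∑ B : Fin k → F2, (((2 : ℝ) ^ k)⁻¹ * Y (eT hT s 0) (eT hT s B)) * chi (A + B) v := by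
    intro v
    rw [muL_apply, Finset.mul_sum, Finset.mul_sum]
    refine Finset.sum_congr rfl fun B _ => ?_
    rw [chi_add_left]
    ring
  rw [Finset.sum_congr rfl fun v _ => h1 v, Finset.sum_comm]
  have h2 : ∀ B : Fin k → F2, ∑ v : Fin k → F2,
      (((2 : ℝ) ^ k)⁻¹ * Y (eT hT s 0) (eT hT s B)) * chi (A + B) v =
        if B = A then Y (eT hT s 0) (eT hT s A) else 0 := by
    intro B
    rw [← Finset.mul_sum, sum_chi']
    by_cases h : B = A
    · rw [if_pos h, h, if_pos (add_self_mod A)]
      field_simp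
    · rw [if_neg h, if_neg, mul_zero]
      intro h3
      exact h (eq_of_add_zero h3).symm
  rw [Finset.sum_congr rfl fun B _ => h2 B, Finset.sum_ite_eq', if_pos (Finset.mem_univ _)]

theorem muL_sum (s : Fin k → V) {Y : Matrix T T ℝ} (hd : ∀ a, Y a a = 1) :
    ∑ v : Fin k → F2, muL hT s v Y = 1 := by
  have h1 := muL_inv hT s 0 Y
  rw [hd] at h1
  rw [← h1]
  refine Finset.sum_congr rfl fun v _ => ?_
  have h2 : chi (0 : Fin k → F2) v = 1 := by
    have h3 : ∑ c, (0 : Fin k → F2) c * v c = 0 := Finset.sum_eq_zero fun c _ => by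
      rw [Pi.zero_apply, zero_mul]
    rw [chi, h3, sgn_zero]
  rw [h2, one_mul]

theorem muL_nonneg (s : Fin k → V) (v : Fin k → F2) {Y : Matrix T T ℝ} (hY : Y.PosSemidef)
    (hc : ∀ a b c d : T, a.1 + b.1 = c.1 + d.1 → Y a b = Y c d) : 0 ≤ muL hT s v Y := by
  classical
  let z : T → ℝ := ∑ A : Fin k → F2, chi A v • (Pi.single (eT hT s A) 1 : T → ℝ)
  have hz : ∀ w : T → ℝ, z ⬝ᵥ w = ∑ A : Fin k → F2, chi A v * w (eT hT s A) := by
    intro w
    change (∑ A : Fin k → F2, chi A v • (Pi.single (eT hT s A) 1 : T → ℝ)) ⬝ᵥ w = _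
    rw [sum_dotProduct]
    refine Finset.sum_congr rfl fun A _ => ?_
    rw [smul_dotProduct, single_one_dotProduct, smul_eq_mul]
  have h3 : 0 ≤ star z ⬝ᵥ Y *ᵥ z := hY.dotProduct_mulVec_nonneg z
  have h4 : star z = z := by
    funext c
    exact star_trivial _
  rw [h4, hz] at h3
  have h5 : ∀ A : Fin k → F2, chi A v * (Y *ᵥ z) (eT hT s A) =
      (2 : ℝ) ^ k * muL hT s v Y := by
    intro A
    have h6 : (Y *ᵥ z) (eT hT s A) = ∑ B : Fin k → F2, chi B v * Y (eT hT s A) (eT hT s B) := by
      rw [← hz (fun b => Y (eT hT s A) b)]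
      exact dotProduct_comm _ _
    have h7 : (2 : ℝ) ^ k * muL hT s v Y =
        ∑ B : Fin k → F2, chi B v * Y (eT hT s 0) (eT hT s B) := by
      rw [muL_apply, ← mul_assoc, mul_inv_cancel₀ (by positivity), one_mul]
    rw [h6, h7, Finset.mul_sum]
    refine Fintype.sum_equiv (Equiv.addLeft A) _ _ fun B => ?_
    change chi A v * (chi B v * Y (eT hT s A) (eT hT s B)) =
      chi (A + B) v * Y (eT hT s 0) (eT hT s (A + B))
    rw [chi_add_left, mul_assoc]
    congr 2
    refine hc _ _ _ _ ?_
    change sv s A + sv s B = sv s 0 + sv s (A + B)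
    rw [sv_zero, zero_add, sv_add]
  rw [Finset.sum_congr rfl fun A _ => h5 A, Finset.sum_const, nsmul_eq_mul] at h3
  have h8 : (0 : ℝ) < ((Finset.univ : Finset (Fin k → F2)).card : ℝ) := by
    have : 0 < (Finset.univ : Finset (Fin k → F2)).card :=
      Finset.card_pos.2 ⟨0, Finset.mem_univ _⟩
    exact_mod_cast this
  have h9 : (0 : ℝ) < (2 : ℝ) ^ k := by positivity
  have h10 : 0 ≤ (2 : ℝ) ^ k * muL hT s v Y := by
    by_contra hneg
    push Not at hneg
    have := mul_neg_of_pos_of_neg h8 hneg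
    linarith
  by_contra hneg
  push Not at hneg
  have := mul_neg_of_pos_of_neg h9 hneg
  linarith

noncomputable instance conFinR {R : Set (Fin k → F2)} : Fintype (Con (pred R) V) :=
  inferInstanceAs (Fintype ((_ : Unit) × ((Fin k → V) × (Fin k → ZMod 2))))

/-- the signs of a constraint -/
def sgv {R : Set (Fin k → F2)} (t : Con (pred R) V) : Fin k → F2 := t.2.2

open Classical in
theorem numSat_eqR {R : Set (Fin k → F2)} (φ : Con (pred R) V → Bool) (x : V → F2) :
    (numSat φ x : ℝ) = ∑ t with φ t = true,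
      if (fun c => x (sco t c)) + sgv t ∈ R then (1 : ℝ) else 0 := by
  rw [numSat, Nat.card_eq_fintype_card, Fintype.card_subtype, Finset.card_filter]
  push_cast
  rw [Finset.sum_filter]
  refine Finset.sum_congr rfl fun t _ => ?_
  have h3 : ((fun c => x (t.2.1 c) + t.2.2 c) ∈ (pred R).rel t.1) ↔
      (fun c => x (sco t c)) + sgv t ∈ R := Iff.rfl
  by_cases ht : φ t = true
  · rw [if_pos ht]
    by_cases h4 : (fun c => x (sco t c)) + sgv t ∈ R
    · rw [if_pos h4, if_pos ⟨ht, h3.2 h4⟩]
    · rw [if_neg h4, if_neg]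
      rintro ⟨-, h5⟩
      exact h4 (h3.1 h5)
  · rw [if_neg ht, if_neg]
    rintro ⟨h5, -⟩
    exact ht h5

theorem numCon_eqR {R : Set (Fin k → F2)} (φ : Con (pred R) V → Bool) :
    (numCon φ : ℝ) = ∑ t with φ t = true, (1 : ℝ) := by
  classical
  rw [numCon, Nat.card_eq_fintype_card, Fintype.card_subtype, Finset.sum_const, nsmul_eq_mul,
    mul_one]

open Classical in
/-- the relaxation -/
noncomputable def kir (R : Set (Fin k → F2)) : SDPRelaxation (pred R) V T where
  space := kspace T
  point x := Matrix.of fun a b => chi x (a.1 + b.1)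
  point_mem x := by
    rw [mem_kspace]
    refine ⟨fun a => ?_, fun a b c d h => ?_⟩
    · change chi x (a.1 + a.1) = 1
      rw [chi_add_right, chi_self]
    · change chi x (a.1 + b.1) = chi x (c.1 + d.1)
      rw [h]
  point_psd x := by
    have h1 : (Matrix.of fun a b : T => chi x (a.1 + b.1)) =
        vecMulVec (fun a : T => chi x a.1) (star fun a : T => chi x a.1) := by
      ext a b
      rw [Matrix.of_apply, vecMulVec_apply, chi_add_right]
      rfl
    rw [h1]
    exact posSemidef_vecMulVec_self_star _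
  obj φ := (∑ t with φ t = true, ∑ v with v + sgv t ∈ R, muL hT (sco t) v).toAffineMap
  obj_point φ x := by
    rw [numSat_eqR, LinearMap.coe_toAffineMap, LinearMap.sum_apply]
    refine Finset.sum_congr rfl fun t _ => ?_
    rw [LinearMap.sum_apply, Finset.sum_congr rfl fun v _ => muL_point hT (sco t) v x,
      Finset.sum_ite_eq']
    by_cases h : (fun c => x (sco t c)) + sgv t ∈ R
    · rw [if_pos h, if_pos]
      exact Finset.mem_filter.2 ⟨Finset.mem_univ _, h⟩
    · rw [if_neg h, if_neg]
      intro h2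
      exact h (Finset.mem_filter.1 h2).2

theorem kir_equivariant (R : Set (Fin k → F2)) (U : Submodule F2 (V → F2)) :
    (kir hT R).Equivariant U := by
  refine ⟨fun u => Matrix.diagonal fun a : T => chi u.1 a.1, fun u v => ?_, fun x u => ?_⟩
  · rw [Matrix.diagonal_mul_diagonal]
    exact congrArg Matrix.diagonal (funext fun a => chi_add_left u.1 v.1 a.1)
  · rw [Matrix.diagonal_transpose]
    ext a b
    rw [Matrix.mul_diagonal, Matrix.diagonal_mul]
    change chi (x + u.1) (a.1 + b.1) = chi u.1 a.1 * chi x (a.1 + b.1) * chi u.1 b.1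
    rw [chi_add_left, chi_add_right u.1]
    ring

/-- A matrix which has the value of the sign at the edges gives a potential. -/
theorem pot_of_psd {Y : Matrix T T ℝ} (hpsd : Y.PosSemidef) (hd : ∀ a, Y a a = 1)
    (G : Con (pred (even k)) V → Prop)
    (hedge : ∀ t, G t → ∀ a b : T, b.1 = a.1 + vec t → Y a b = sgn ℝ (sg t)) :
    ∃ c : (V → F2) → F2, ∀ t, G t → ∀ y ∈ T, y + vec t ∈ T → c (y + vec t) = c y + sg t := by
  classical
  have hs : ∀ a b, Y b a = Y a b := fun a b => by
    have := hpsd.isHermitian.apply a b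
    simpa using this
  let r : Setoid T :=
    { r := fun a b => Y a b * Y a b = 1
      iseqv :=
        { refl := fun a => by rw [hd, mul_one]
          symm := fun {a b} hab => by rw [hs a b]; exact hab
          trans := fun {a b c} hab hbc => by
            have h1 := psd_one hpsd hd hab rfl c
            rw [h1]
            calc Y a b * Y b c * (Y a b * Y b c) = (Y a b * Y a b) * (Y b c * Y b c) := by ring
              _ = 1 := by rw [hab, hbc, mul_one] } }
  let c : T → F2 := fun a => if Y (Quotient.out (Quotient.mk r a)) a = 1 then 0 else 1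
  have hcY : ∀ a, Y (Quotient.out (Quotient.mk r a)) a = sgn ℝ (c a) := by
    intro a
    have h1 : Y (Quotient.out (Quotient.mk r a)) a * Y (Quotient.out (Quotient.mk r a)) a = 1 :=
      Quotient.mk_out (s := r) a
    by_cases h2 : Y (Quotient.out (Quotient.mk r a)) a = 1
    · have h3 : c a = 0 := if_pos h2
      rw [h3, sgn_zero, h2]
    · have h3 : c a = 1 := if_neg h2
      rw [h3, sgn_one]
      have h4 : (Y (Quotient.out (Quotient.mk r a)) a - 1) *
          (Y (Quotient.out (Quotient.mk r a)) a + 1) = 0 := by linear_combination h1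
      rcases mul_eq_zero.1 h4 with h5 | h5
      · exact absurd (sub_eq_zero.1 h5) h2
      · linarith
  have hsg : ∀ a b : F2, sgn ℝ a = sgn ℝ b → a = b := by
    intro a b hab
    rcases F2.cases a with rfl | rfl <;> rcases F2.cases b with rfl | rfl
    · rfl
    · rw [sgn_zero, sgn_one] at hab
      norm_num at hab
    · rw [sgn_zero, sgn_one] at hab
      norm_num at hab
    · rfl
  refine ⟨fun y => if hy : y ∈ T then c ⟨y, hy⟩ else 0, fun t ht y hy hy' => ?_⟩
  dsimp only
  rw [dif_pos hy, dif_pos hy']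
  have h1 := hedge t ht ⟨y, hy⟩ ⟨y + vec t, hy'⟩ rfl
  have h2 : Quotient.mk r ⟨y, hy⟩ = Quotient.mk r ⟨y + vec t, hy'⟩ := by
    refine Quotient.sound ?_
    change Y ⟨y, hy⟩ ⟨y + vec t, hy'⟩ * Y ⟨y, hy⟩ ⟨y + vec t, hy'⟩ = 1
    rw [h1]
    exact sgn_mul_self ℝ _
  have h3 := hcY ⟨y, hy⟩
  have h4 := hcY ⟨y + vec t, hy'⟩
  rw [← h2] at h4
  set ρ := Quotient.out (Quotient.mk r ⟨y, hy⟩) with hρ
  refine hsg _ _ ?_
  rw [sgn_add, ← h4, ← h3]
  have h5 := psd_one hpsd hd (sgn_mul_self ℝ (sg t)) h1 ρ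
  rw [hs ρ ⟨y, hy⟩, hs ρ ⟨y + vec t, hy'⟩] at h5
  rw [h5]
  have h6 := sgn_mul_self ℝ (sg t)
  linear_combination (-Y ρ ⟨y + vec t, hy'⟩) * h6

open Classical in
/-- If the relaxation does not refute, the local distributions satisfy the constraints. -/
theorem kir_local {R : Set (Fin k → F2)} (φ : Con (pred R) V → Bool) {Y : Matrix T T ℝ}
    (hpsd : Y.PosSemidef) (hd : ∀ a, Y a a = 1)
    (hc : ∀ a b c d : T, a.1 + b.1 = c.1 + d.1 → Y a b = Y c d)
    (hobj : (numCon φ : ℝ) ≤ (kir hT R).obj φ Y) :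
    ∀ t, φ t = true → ∀ v : Fin k → F2, v + sgv t ∉ R → muL hT (sco t) v Y = 0 := by
  have hobj' : (numCon φ : ℝ) ≤ ∑ t with φ t = true,
      ∑ v with v + sgv t ∈ R, muL hT (sco t) v Y := by
    refine le_trans hobj (le_of_eq ?_)
    change (∑ t with φ t = true, ∑ v with v + sgv t ∈ R, muL hT (sco t) v) Y = _
    rw [LinearMap.sum_apply]
    refine Finset.sum_congr rfl fun t _ => ?_
    rw [LinearMap.sum_apply]
  rw [numCon_eqR] at hobj'
  have hsplit : ∀ t : Con (pred R) V, ∑ v with v + sgv t ∈ R, muL hT (sco t) v Y +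
      ∑ v with ¬ (v + sgv t ∈ R), muL hT (sco t) v Y = 1 := by
    intro t
    rw [Finset.sum_filter_add_sum_filter_not, muL_sum hT _ hd]
  have hle : ∀ t ∈ Finset.univ.filter (fun t : Con (pred R) V => φ t = true),
      ∑ v with v + sgv t ∈ R, muL hT (sco t) v Y ≤ 1 := by
    intro t _
    rw [← hsplit t]
    refine le_add_of_nonneg_right (Finset.sum_nonneg fun v _ => muL_nonneg hT _ _ hpsd hc)
  have heq := (Finset.sum_eq_sum_iff_of_le hle).1 (le_antisymm (Finset.sum_le_sum hle) hobj')
  intro t ht v hv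
  have h1 := heq t (Finset.mem_filter.2 ⟨Finset.mem_univ _, ht⟩)
  have h2 := hsplit t
  rw [h1] at h2
  have h3 : ∑ v with ¬ (v + sgv t ∈ R), muL hT (sco t) v Y = 0 := by linarith
  exact (Finset.sum_eq_zero_iff_of_nonneg fun v _ => muL_nonneg hT _ _ hpsd hc).1 h3 v
    (Finset.mem_filter.2 ⟨Finset.mem_univ _, hv⟩)

end kikr

/-- **Piece KIKR.** -/
theorem kikr : S_KIKR := by
  classical
  intro k V _ _ R q T hR hq hT'
  have hT : ∀ (s : Fin k → V) (A : Fin k → F2), sv s A ∈ T := sv_mem hT'
  refine ⟨kir hT R, fun U => kir_equivariant hT R U, fun φ h => ?_⟩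
  rw [SDPRelaxation.Below] at h
  push Not at h
  obtain ⟨Y, hY, hpsd, hobj⟩ := h
  obtain ⟨hd, hc⟩ := (mem_kspace T Y).1 hY
  have hloc := kir_local hT φ hpsd hd hc hobj
  refine pot_of_psd hpsd hd (fun t => lft q φ t = true) fun t ht a b hab => ?_
  have ht' : ∀ t' : Con (pred R) V, sco t' = sco t → sg t' = ∑ c, q c + sg t → φ t' = true := by
    have h0 : decide (∀ t' : Con (pred R) V, sco t' = sco t → sg t' = ∑ c, q c + sg t →
        φ t' = true) = true := by
      have h1 := ht
      rw [lft] at h1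
      simpa using h1
    simpa using h0
  obtain ⟨w, hw⟩ : ∃ w, w ∉ R := by
    by_contra h2
    push Not at h2
    exact hR (Set.eq_univ_of_forall h2)
  have z2 : ∀ a : ZMod 2, a + a = 0 := by decide
  have hw1 : ∑ c, w c = ∑ c, q c + 1 := by
    rcases F2.cases (∑ c, w c + ∑ c, q c) with h1 | h1
    · exfalso
      apply hw
      have h2 := hq (w + q) (by
        rw [mem_evenM]
        simp only [Pi.add_apply, Finset.sum_add_distrib]
        exact h1)
      have h3 : q + (w + q) = w := by
        funext c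
        simp only [Pi.add_apply]
        linear_combination z2 (q c)
      rwa [h3] at h2
    · linear_combination h1 - z2 (∑ c, q c)
  have hz : ∀ v : Fin k → F2, ∑ c, v c ≠ sg t → muL hT (sco t) v Y = 0 := by
    intro v hv
    have hv1 : ∑ c, v c = sg t + 1 := by
      rcases F2.cases (∑ c, v c + sg t) with h1 | h1
      · exfalso
        apply hv
        linear_combination h1 - z2 (sg t)
      · linear_combination h1 - z2 (sg t)
    have h2 := ht' ⟨(), (sco t, fun c => v c + w c)⟩ rfl (by
      change ∑ c, (v c + w c) = ∑ c, q c + sg t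
      rw [Finset.sum_add_distrib]
      linear_combination hv1 + hw1 + z2 1)
    refine hloc _ h2 v ?_
    have h3 : v + (fun c => v c + w c) = w := by
      funext c
      simp only [Pi.add_apply]
      linear_combination z2 (v c)
    change ¬ (v + (fun c => v c + w c) ∈ R)
    rw [h3]
    exact hw
  have h1 : Y a b = Y (eT hT (sco t) 0) (eT hT (sco t) 1) := by
    refine hc _ _ _ _ ?_
    change a.1 + b.1 = sv (sco t) 0 + sv (sco t) 1
    rw [hab, sv_zero, zero_add, ← add_assoc, add_self_mod, zero_add]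
    rfl
  rw [h1, ← muL_inv hT (sco t) 1 Y]
  have h4 : ∀ v : Fin k → F2, chi 1 v * muL hT (sco t) v Y =
      sgn ℝ (sg t) * muL hT (sco t) v Y := by
    intro v
    by_cases hv : ∑ c, v c = sg t
    · have h5 : ∑ c, (1 : Fin k → F2) c * v c = sg t := by
        rw [← hv]
        refine Finset.sum_congr rfl fun c _ => ?_
        rw [Pi.one_apply, one_mul]
      rw [chi, h5]
    · rw [hz v hv, mul_zero, mul_zero]
  rw [Finset.sum_congr rfl fun v _ => h4 v, ← Finset.mul_sum, muL_sum hT _ hd, mul_one]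

end Pool.Agent.H5Sdp
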