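import Pool.Agent.H5Sdp.Pseudo
import Pool.Agent.H5Sdp.Defs
import Pool.Agent.H5Sdp.Dens
import Pool.Agent.H5Dich.ResistMain

/-!
# Equivariant semidefinite relaxations do not beat the random assignment
-/

set_option autoImplicit false

namespace Pool.Agent.H5Sdp

open Matrix Module Pool.Agent.H5Sym Pool.Agent.H5Dich Pool.Agent.H5Lin

section system

variable {k P m : ℕ} {V : Type}

/-- the functionals which vanish on the right-hand sides in `M` and involve few equations -/
def Sml (M : Submodule F2 (Fin k → F2)) (b : ℕ) : Set (Dual F2 (Fin m → Fin k → F2)) :=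
  {q | (∀ w : Fin m → Fin k → F2, (∀ j, w j ∈ M) → q w = 0) ∧ (supp (coef q)).card < b}

theorem exists_system [Finite V] (ι : Fin k × Fin P ↪ V) (U : Submodule F2 (V → F2))
    (hι : ∀ y : Fin k × Fin P → F2, ∃ u ∈ U, ∀ p, u (ι p) = y p) (Spec : Set (Dual F2 U)) (s : ℕ)
    (hSpec : Spec.ncard ≤ s) {κ : ℕ} (hκ : 1 < κ) (hP0 : 0 < P)
    (hP : 256 * 4 ^ k * κ * m ^ 2 ≤ P ^ 3) (hs : 2 * s ^ 2 < 4 ^ κ) (hk : 3 ≤ k)
    (M : Submodule F2 (Fin k → F2))
    (hM : ∀ h : Fin k → F2, h ≠ 0 → (∀ y ∈ M, ∑ c, h c * y c = 0) →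
      3 ≤ (Finset.univ.filter fun c => h c ≠ 0).card) :
    ∃ f : Fin k → Fin m → Fin P, (∀ j j', (∀ c, f c j = f c j') → j = j') ∧
      (0 : Dual F2 (Fin m → Fin k → F2)) ∈ Sml M κ ∧
      (∀ q ∈ Sml (m := m) M κ, ∀ q' ∈ Sml (m := m) M κ, q + q' ∈ Sml (m := m) M (2 * κ)) ∧
      (∀ q ∈ Sml (m := m) M (2 * κ), (∀ u : U, q (lhsH ι f u.1) = 0) → q = 0) ∧
      (∀ q ∈ Sml (m := m) M (2 * κ), (∃ ξ ∈ Spec, ∃ η ∈ Spec, ∀ u : U,
        q (lhsH ι f u.1) = ξ u + η u) → q ∈ Sml (m := m) M κ) ∧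
      ∀ (j : Fin m) (h : Dual F2 (Fin k → F2)), (∀ l ∈ M, h l = 0) →
        h.comp (LinearMap.proj j) ∈ Sml (m := m) M κ := by
  classical
  have : Finite (V → F2) := Pi.finite
  have : Finite U := Subtype.finite
  have hfinD : Finite (Dual F2 U) := Finite.of_injective (fun q : Dual F2 U => (q : U → F2))
    DFunLike.coe_injective
  let Bad : Finset (Fin k → Fin P → F2) := Finset.univ.filter fun v =>
    ∃ ξ ∈ Spec, ∃ η ∈ Spec, funcH ι U v = ξ + η
  have hBad : Bad.card ≤ s ^ 2 := by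
    have h1 : ∀ v : Bad, ∃ p : Spec × Spec, funcH ι U v.1 = p.1.1 + p.2.1 := by
      intro v
      obtain ⟨ξ, hξ, η, hη, h⟩ := (Finset.mem_filter.1 v.2).2
      exact ⟨(⟨ξ, hξ⟩, ⟨η, hη⟩), h⟩
    choose p hp using h1
    have h2 : Function.Injective p := by
      intro v v' h
      refine Subtype.ext (funcH_inj hι ?_)
      rw [hp, hp, h]
    have h3 := Nat.card_le_card_of_injective p h2
    rw [Nat.card_eq_fintype_card, Fintype.card_coe, Nat.card_prod, Nat.card_coe_set_eq] at h3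
    refine h3.trans ?_
    rw [pow_two]
    exact Nat.mul_le_mul hSpec hSpec
  obtain ⟨f, hf⟩ := exists_entriesH (R := Fin k) (m := m) (by omega : 0 < κ) hP0
    (by rwa [Fintype.card_fin]) Bad (by omega)
  have hsmall : ∀ b, ∀ q ∈ Sml (m := m) M b, ∀ j, coef q j ≠ 0 →
      3 ≤ (Finset.univ.filter fun c => coef q j c ≠ 0).card := by
    intro b q hq j hj
    refine hM (coef q j) hj fun y hy => ?_
    rw [← coef_single]
    refine hq.1 _ fun j' => ?_
    by_cases h : j' = j
    · subst h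
      rwa [Pi.single_eq_same]
    · rw [Pi.single_eq_of_ne h]
      exact M.zero_mem
  refine ⟨f, fun j j' hjj => ?_, ⟨fun _ _ => rfl, ?_⟩, ?_, ?_, ?_, ?_⟩
  · by_contra hne
    let h : Fin m → Fin k → F2 := fun i => if i = j ∨ i = j' then 1 else 0
    have hh : ∀ i, h i ≠ 0 → i = j ∨ i = j' := by
      intro i hi
      by_contra hcon
      exact hi (if_neg hcon)
    have hone : (1 : Fin k → F2) ≠ 0 := by
      intro h0
      have := congrFun h0 ⟨0, by omega⟩
      exact one_ne_zero this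
    have h1 : supp h = {j, j'} := by
      ext i
      rw [Finset.mem_insert, Finset.mem_singleton, supp, Finset.mem_filter]
      refine ⟨fun hi => hh i hi.2, fun hi => ⟨Finset.mem_univ _, ?_⟩⟩
      have h2 : h i = 1 := if_pos hi
      rw [h2]
      exact hone
    have h2 : (supp h).card = 2 := by rw [h1, Finset.card_pair hne]
    refine (hf h fun i hi => ?_).2 (Finset.card_pos.1 (by omega)) (by omega) ?_
    · have h3 : h i = 1 := if_pos (hh i hi)
      rw [h3]
      simpa using hk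
    · funext c
      have h3 : suppc h c = {j, j'} := by
        ext i
        rw [Finset.mem_insert, Finset.mem_singleton, suppc, Finset.mem_filter]
        refine ⟨fun hi => hh i fun h0 => hi.2 (by rw [h0]; rfl), fun hi => ⟨Finset.mem_univ _, ?_⟩⟩
        change (if i = j ∨ i = j' then (1 : Fin k → F2) else 0) c ≠ 0
        rw [if_pos hi]
        exact one_ne_zero
      rw [bdH, h3, Finset.sum_pair hne, hjj c, add_self_mod]
      rfl
  · change (supp (0 : Fin m → Fin k → F2)).card < κ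
    rw [supp_zero, Finset.card_empty]
    omega
  · rintro q ⟨hq1, hq2⟩ q' ⟨hq1', hq2'⟩
    refine ⟨fun w hw => ?_, ?_⟩
    · rw [LinearMap.add_apply, hq1 w hw, hq1' w hw, add_zero]
    · rw [coef_add]
      have := supp_add (coef q) (coef q')
      omega
  · intro q hq hq0
    have h0 : bdH f (coef q) = 0 := by
      refine funcH_inj hι (LinearMap.ext fun u => ?_)
      rw [funcH_bd, hq0]
      change 0 = ∑ c, ∑ i, (0 : Fin k → Fin P → F2) c i * u.1 (ι (c, i))
      simp
    have h1 : supp (coef q) = ∅ := by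
      by_contra hne
      exact (hf (coef q) (hsmall _ q hq)).2 (Finset.nonempty_iff_ne_empty.2 hne)
        (le_of_lt hq.2) h0
    refine LinearMap.ext fun d => ?_
    rw [coef_apply]
    refine Finset.sum_eq_zero fun j _ => ?_
    have h2 : coef q j = 0 := by
      by_contra h2
      have : j ∈ supp (coef q) := Finset.mem_filter.2 ⟨Finset.mem_univ _, h2⟩
      rw [h1] at this
      exact absurd this (Finset.notMem_empty j)
    rw [h2]
    simp
  · rintro q hq ⟨ξ, hξ, η, hη, h⟩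
    refine ⟨hq.1, ?_⟩
    by_contra hcon
    refine (hf (coef q) (hsmall _ q hq)).1 (not_lt.1 hcon) hq.2
      (Finset.mem_filter.2 ⟨Finset.mem_univ _, ξ, hξ, η, hη, LinearMap.ext fun u => ?_⟩)
    rw [funcH_bd]
    exact h u
  · intro j h hh
    refine ⟨fun w hw => hh _ (hw j), ?_⟩
    have h4 : supp (coef (h.comp (LinearMap.proj (R := F2) (φ := fun _ : Fin m => Fin k → F2) j))) ⊆
        {j} := by
      intro j' hj'
      rw [Finset.mem_singleton]
      by_contra hne
      refine (Finset.mem_filter.1 hj').2 ?_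
      funext c'
      change h ((Pi.single j' (Pi.single c' 1) : Fin m → Fin k → F2) j) = 0
      rw [Pi.single_eq_of_ne (Ne.symm hne), map_zero]
    have h5 := Finset.card_le_card h4
    rw [Finset.card_singleton] at h5
    omega

end system

theorem resistS {k : ℕ} (hk : 3 ≤ k) (R : Set (Fin k → F2)) (hR : PairwiseSubspace R) (ε : ℝ)
    (hε0 : 0 < ε) (hε1 : ε ≤ 1) (n : ℕ) (U : Submodule F2 (Fin n → F2)) (I : Type) [Fintype I]
    [DecidableEq I] [Nonempty I] (S : SDPRelaxation (pred R) (Fin n) I) (hU : S.Equivariant U)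
    (hrej : ∀ φ : Con (pred R) (Fin n) → Bool, Proper φ → ValueLT (R.ncard / 2 ^ k + ε) φ →
      S.Below φ (numCon φ)) :
    2 ^ ⌊ε ^ 4 * finrank F2 U / (2 * resC k : ℕ)⌋₊ ≤ Fintype.card I := by
  classical
  obtain ⟨q, M, hqM, hM⟩ := hR
  obtain ⟨G, hG, hGp⟩ := hU
  have hs : 0 < Fintype.card I := Fintype.card_pos
  obtain ⟨ι₀, hι₀⟩ := exists_info U
  generalize hd : finrank F2 U = d at ι₀ hι₀ ⊢
  set K : ℕ := ⌈4 * k / ε ^ 2⌉₊ + 1 with hK
  set N := 256 * 4 ^ k * K ^ 2 with hN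
  have hε2 : 0 < ε ^ 2 := by positivity
  have hK1 : (4 * k / ε ^ 2 : ℝ) < K := by
    rw [hK]
    push_cast
    linarith [Nat.le_ceil (4 * k / ε ^ 2 : ℝ)]
  have hK2 : (K : ℝ) * ε ^ 2 ≤ 4 * k + 2 := by
    have h1 : (K : ℝ) < 4 * k / ε ^ 2 + 1 + 1 := by
      rw [hK]
      push_cast
      have := Nat.ceil_lt_add_one (show (0 : ℝ) ≤ 4 * k / ε ^ 2 by positivity)
      linarith
    have h2 : (K : ℝ) * ε ^ 2 ≤ (4 * k / ε ^ 2 + 1 + 1) * ε ^ 2 :=
      mul_le_mul_of_nonneg_right h1.le hε2.le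
    have h3 : (4 * k / ε ^ 2 + 1 + 1) * ε ^ 2 = 4 * k + 2 * ε ^ 2 := by
      field_simp
      ring
    have hε21 : ε ^ 2 ≤ 1 := pow_le_one₀ hε0.le hε1
    linarith
  set κ₀ := ⌊ε ^ 4 * d / (2 * resC k : ℕ)⌋₊ with hκdef
  rcases Nat.eq_zero_or_pos κ₀ with h0 | hκ₀
  · rw [h0, pow_zero]; exact hs
  obtain ⟨κ, hκe⟩ : ∃ κ, κ = κ₀ + 1 := ⟨_, rfl⟩
  have hκ : 1 < κ := by omega
  have hcκ : (k * N + 1) * κ ≤ d := by
    have h1 : (κ : ℝ) ≤ ε ^ 4 * d / resC k := by
      have h2 : (κ₀ : ℝ) ≤ ε ^ 4 * d / (2 * resC k : ℕ) := Nat.floor_le (by positivity)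
      have h3 : (κ : ℝ) ≤ 2 * κ₀ := by exact_mod_cast (by omega : κ ≤ 2 * κ₀)
      have h4 : (0 : ℝ) < resC k := by
        have : 0 < resC k := Nat.succ_pos _
        exact_mod_cast this
      have h5 : 2 * (ε ^ 4 * d / (2 * resC k : ℕ)) = ε ^ 4 * d / resC k := by
        push_cast
        field_simp
      linarith
    have hc : (0 : ℝ) < resC k := by
      have : 0 < resC k := Nat.succ_pos _
      exact_mod_cast this
    have h2 : ((k * N + 1 : ℕ) : ℝ) * ε ^ 4 ≤ resC k := by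
      rw [hN, resC]
      push_cast
      have h3 : ((K : ℝ) * ε ^ 2) ^ 2 ≤ (4 * k + 2) ^ 2 := by
        gcongr
      have h4 : ε ^ 4 ≤ 1 := pow_le_one₀ hε0.le hε1
      have h5 : ((k : ℝ) * (256 * 4 ^ k * (K : ℝ) ^ 2) + 1) * ε ^ 4 =
          k * (256 * 4 ^ k * ((K : ℝ) * ε ^ 2) ^ 2) + ε ^ 4 := by ring
      rw [h5]
      gcongr
    have h3 : ((k * N + 1 : ℕ) : ℝ) * κ ≤ d := by
      calc ((k * N + 1 : ℕ) : ℝ) * κ ≤ ((k * N + 1 : ℕ) : ℝ) * (ε ^ 4 * d / resC k) := by gcongr
        _ = (((k * N + 1 : ℕ) : ℝ) * ε ^ 4) * (d / resC k) := by ring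
        _ ≤ resC k * (d / resC k) := by gcongr
        _ = d := by field_simp
    exact_mod_cast h3
  have hNP : N * κ ≤ d / k := by
    rw [Nat.le_div_iff_mul_le (by omega)]
    have : (k * N + 1) * κ = N * κ * k + κ := by ring
    omega
  set P := d / k with hPdef
  have hN1 : 0 < N := by
    rw [hN]
    have : 0 < K := Nat.succ_pos _
    positivity
  have hP0 : 0 < P := lt_of_lt_of_le (Nat.mul_pos hN1 (by omega)) hNP
  have hP : 256 * 4 ^ k * κ * (K * P) ^ 2 ≤ P ^ 3 := by
    calc 256 * 4 ^ k * κ * (K * P) ^ 2 = N * κ * P ^ 2 := by rw [hN]; ring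
      _ ≤ P * P ^ 2 := Nat.mul_le_mul_right _ hNP
      _ = P ^ 3 := by ring
  by_contra hcon
  push Not at hcon
  have hC : 2 * Fintype.card I ^ 2 < 4 ^ κ := by
    have h3 : Fintype.card I ^ 2 ≤ (2 ^ κ₀) ^ 2 := Nat.pow_le_pow_left hcon.le 2
    have h4 : (2 ^ κ₀) ^ 2 = 4 ^ κ₀ := by rw [← pow_mul, mul_comm, pow_mul]; norm_num
    have h5 : 0 < 4 ^ κ₀ := by positivity
    rw [h4] at h3
    calc 2 * Fintype.card I ^ 2 ≤ 2 * 4 ^ κ₀ := Nat.mul_le_mul_left _ h3
      _ < 4 ^ κ₀ * 4 := by linarith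
      _ = 4 ^ κ := by rw [hκe, pow_succ]
  -- the blocks
  obtain ⟨ι₁⟩ : Nonempty (Fin k × Fin P ↪ Fin d) := by
    refine Function.Embedding.nonempty_of_card_le ?_
    rw [Fintype.card_prod, Fintype.card_fin, Fintype.card_fin, Fintype.card_fin]
    exact Nat.mul_div_le d k
  let ι₂ : Fin k × Fin P ↪ Fin n := ι₁.trans ι₀
  have hι : ∀ y : Fin k × Fin P → F2, ∃ u ∈ U, ∀ p, u (ι₂ p) = y p := by
    intro y
    obtain ⟨u, hu, hu'⟩ := hι₀ (Function.extend ι₁ y 0)
    refine ⟨u, hu, fun p => ?_⟩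
    change u (ι₀ (ι₁ p)) = y p
    rw [hu', ι₁.injective.extend_apply]
  have hwt : ∀ h : Fin k → F2, h ≠ 0 → (∀ y ∈ M, ∑ c, h c * y c = 0) →
      3 ≤ (Finset.univ.filter fun c => h c ≠ 0).card := by
    intro h hh hy
    have h1 := hM h hh fun m hm => hy m hm
    have h2 : {j | h j ≠ 0} = ↑(Finset.univ.filter fun c => h c ≠ 0) := by
      ext j
      simp
    rwa [h2, Set.ncard_coe_finset] at h1
  have : Fintype U := Fintype.ofFinite U
  have hfinD : Finite (Dual F2 U) := Finite.of_injective (fun q : Dual F2 U => (q : U → F2))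
    DFunLike.coe_injective
  have : Fintype (Dual F2 U) := Fintype.ofFinite _
  obtain ⟨f, hdist, h0, hadd, hinj, hgap, hloc⟩ := exists_system (m := K * P) ι₂ U hι
    {ξ : Dual F2 U | Sdp G ξ} (Fintype.card I) (card_proj G hG) hκ hP0 hP hC hk M hwt
  let A : U →ₗ[F2] (Fin (K * P) → Fin k → F2) := (lhsH ι₂ f).comp U.subtype
  obtain ⟨v0⟩ : Nonempty (Fin n) := ⟨ι₂ (⟨0, by omega⟩, ⟨0, hP0⟩)⟩
  have hprop : ∀ w, Proper (frm (Γ := pred R) v0 ι₂ f
      {⟨(), (some, q)⟩} (M.comap (LinearMap.funLeft F2 F2 some)) w) := by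
    intro w t ht
    obtain ⟨j, l, hl, rfl⟩ := (frm_pred R v0 _ f q M w t).1 ht
    intro c c' h
    exact congrArg Prod.fst (ι₂.injective h)
  -- the translates
  set δ : ℝ := R.ncard / 2 ^ k with hδ
  have hRk : R.ncard ≤ 2 ^ k := by
    have h1 := Set.ncard_le_ncard (Set.subset_univ R) (Set.toFinite _)
    rw [Set.ncard_univ, Nat.card_eq_fintype_card, Fintype.card_fun, ZMod.card, Fintype.card_fin] at h1
    exact h1
  have hδ0 : 0 ≤ δ := by positivity
  have hδ1 : δ ≤ 1 := by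
    rw [hδ, div_le_one (by positivity)]
    exact_mod_cast hRk
  obtain ⟨w, hw⟩ := exists_w (m := K * P) (dens R M) (dens_nonneg R M) (dens_le_one R M) hδ0 hδ1
    hε0 hε1 (by rw [dens_sum, hδ]; field_simp)
    (ι := Fin k × Fin P → F2) (fun z j => (fun c => z (c, f c j)) + q) (by
      rw [Fintype.card_fun, ZMod.card, Fintype.card_prod, Fintype.card_fin, Fintype.card_fin]
      have h1 : (2 : ℝ) ≤ Real.exp 1 := by
        have := Real.add_one_le_exp (1 : ℝ)
        linarith
      have h2 : ((2 ^ (k * P) : ℕ) : ℝ) ≤ Real.exp ((k * P : ℕ) * 1) := by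
        rw [Real.exp_nat_mul]
        push_cast
        gcongr
      refine h2.trans_lt (Real.exp_lt_exp.2 ?_)
      push_cast
      have hPr : (0 : ℝ) < P := by exact_mod_cast hP0
      have h3 : (k : ℝ) < ε ^ 2 / 4 * K := by
        have h4 := mul_lt_mul_of_pos_left hK1 (show 0 < ε ^ 2 / 4 by positivity)
        have h5 : ε ^ 2 / 4 * (4 * k / ε ^ 2) = (k : ℝ) := by field_simp
        rwa [h5] at h4
      nlinarith)
  set φ := frm (Γ := pred R) v0 ι₂ f {⟨(), (some, q)⟩} (M.comap (LinearMap.funLeft F2 F2 some)) w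
    with hφ
  have hlow : ValueLT (δ + ε) φ := by
    intro x
    rw [card_sat R v0 _ f hdist q M w x, card_total R v0 _ f hdist q M w]
    have hMc : (0 : ℝ) < Nat.card M := by
      have : 0 < Nat.card M := Nat.card_pos
      exact_mod_cast this
    have h1 := hw (x ∘ ι₂)
    have h2 := mul_lt_mul_of_pos_right h1 hMc
    rw [← mul_assoc]
    exact h2
  -- the matrix
  let μ : U → ℝ := mu A (Sml M κ) w
  have hμ : ∑ u, μ u = 1 := mu_sum h0 hadd hinj
  let X : U → Matrix I I ℝ := fun u => G u * S.point 0 * (G u)ᵀ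
  have hX : ∀ u : U, X u = S.point u.1 := by
    intro u
    have := hGp 0 u
    rw [zero_add] at this
    exact this.symm
  let Y : Matrix I I ℝ := ∑ u, μ u • X u
  have hYpsd : Y.PosSemidef := psd_mu h0 hadd hinj G hgap (S.point 0) (S.point_psd 0)
  have hYaff : Y = Finset.univ.affineCombination ℝ X μ :=
    (Finset.affineCombination_eq_linear_combination _ _ _ hμ).symm
  have hYmem : Y ∈ S.space := by
    rw [hYaff]
    refine (affineSpan_le.2 (Set.range_subset_iff.2 fun u => ?_) :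
      affineSpan ℝ (Set.range X) ≤ S.space) (affineCombination_mem_affineSpan hμ X)
    rw [hX]
    exact S.point_mem _
  have hobj : S.obj φ Y = numCon φ := by
    rw [hYaff, Finset.map_affineCombination _ _ _ hμ,
      Finset.affineCombination_eq_linear_combination _ _ _ hμ]
    have h1 : ∀ u : U, (S.obj φ ∘ X) u =
        (∑ j, dens R M ((LinearMap.proj (R := F2) (φ := fun _ : Fin (K * P) => Fin k → F2) j) (A u) +
          (LinearMap.proj (R := F2) (φ := fun _ : Fin (K * P) => Fin k → F2) j) w + q)) *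
          Nat.card M := by
      intro u
      change S.obj φ (X u) = _
      rw [hX, S.obj_point, numSat, card_sat R v0 _ f hdist q M w u.1]
      congr 1
      refine Finset.sum_congr rfl fun j _ => ?_
      congr 1
      change (fun c => u.1 (ι₂ (c, f c j))) + q + w j = (fun c => u.1 (ι₂ (c, f c j))) + w j + q
      abel
    simp only [h1, smul_eq_mul]
    have h2 : ∀ j, ∑ u, μ u * dens R M
        ((LinearMap.proj (R := F2) (φ := fun _ : Fin (K * P) => Fin k → F2) j) (A u) +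
          (LinearMap.proj (R := F2) (φ := fun _ : Fin (K * P) => Fin k → F2) j) w + q) = 1 := by
      intro j
      have h3 := mu_local (A := A) (w := w) hadd hinj
        (LinearMap.proj (R := F2) (φ := fun _ : Fin (K * P) => Fin k → F2) j) M
        (fun y => dens R M (y + q)) (fun y l hl => dens_shift R M _ _ _ hl) (hloc j)
      rw [h3, zero_add]
      exact dens_one R M hqM
    calc ∑ u, μ u * ((∑ j, dens R M
          ((LinearMap.proj (R := F2) (φ := fun _ : Fin (K * P) => Fin k → F2) j) (A u) +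
          (LinearMap.proj (R := F2) (φ := fun _ : Fin (K * P) => Fin k → F2) j) w + q)) * Nat.card M)
        = (∑ j, ∑ u, μ u * dens R M
          ((LinearMap.proj (R := F2) (φ := fun _ : Fin (K * P) => Fin k → F2) j) (A u) +
          (LinearMap.proj (R := F2) (φ := fun _ : Fin (K * P) => Fin k → F2) j) w + q)) *
            Nat.card M := by
          rw [Finset.sum_comm, Finset.sum_mul]
          refine Finset.sum_congr rfl fun u _ => ?_
          rw [← Finset.mul_sum]
          ring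
      _ = numCon φ := by
          simp only [h2]
          rw [Finset.sum_const, Finset.card_univ, Fintype.card_fin, nsmul_eq_mul, mul_one]
          exact (card_total R v0 ι₂ f hdist q M w).symm
  exact absurd hobj (hrej φ (hprop w) hlow Y hYmem hYpsd).ne

end Pool.Agent.H5Sdp
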