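import Pool.Agent.H5Sdp.Rep

/-!
# Pseudo-distributions that satisfy all the equations
-/

set_option autoImplicit false

namespace Pool.Agent.H5Sdp

open Matrix Module Pool.Agent.H5Sym Pool.Agent.H5Lin

variable {H : Type} [AddCommGroup H] [Module F2 H] [Fintype H] {W : Type} [AddCommGroup W]
  [Module F2 W] (A : H →ₗ[F2] W) (small small' : Set (Dual F2 W)) (w : W)

open Classical in
/-- the pseudo-expectation of a character -/
noncomputable def Ep (θ : Dual F2 H) : ℝ :=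
  if h : ∃ q ∈ small', ∀ u, q (A u) = θ u then sgn ℝ (Classical.choose h w) else 0

/-- the pseudo-distribution -/
noncomputable def mu [Fintype (Dual F2 H)] (u : H) : ℝ :=
  (Fintype.card H : ℝ)⁻¹ * ∑ θ : Dual F2 H, Ep A small' w θ * sgn ℝ (θ u)

variable {A small small' w}

omit [Fintype H] in
theorem Ep_eq (hadd : ∀ q ∈ small', ∀ q' ∈ small', q + q' ∈ small)
    (hinj : ∀ q ∈ small, (∀ u, q (A u) = 0) → q = 0) {q : Dual F2 W} (hq : q ∈ small')
    {θ : Dual F2 H} (h : ∀ u, q (A u) = θ u) : Ep A small' w θ = sgn ℝ (q w) := by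
  have hex : ∃ q ∈ small', ∀ u, q (A u) = θ u := ⟨q, hq, h⟩
  rw [Ep, dif_pos hex]
  obtain ⟨h1, h2⟩ := Classical.choose_spec hex
  have h3 : Classical.choose hex + q = 0 := by
    refine hinj _ (hadd _ h1 _ hq) fun u => ?_
    rw [LinearMap.add_apply, h2, h, add_self_mod]
  have h4 := LinearMap.congr_fun h3 w
  have h5 : ∀ a b : F2, a + b = 0 → a = b := by decide
  rw [h5 _ _ h4]

theorem mu_sgn [Fintype (Dual F2 H)] (θ : Dual F2 H) :
    ∑ u, mu A small' w u * sgn ℝ (θ u) = Ep A small' w θ := by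
  classical
  have hc : (Fintype.card H : ℝ) ≠ 0 := card_ne_zero two_ne
  have h1 : ∑ u, mu A small' w u * sgn ℝ (θ u) =
      (Fintype.card H : ℝ)⁻¹ * ∑ ψ : Dual F2 H, Ep A small' w ψ * ∑ u, sgn ℝ ((ψ + θ) u) := by
    simp only [mu, Finset.mul_sum, Finset.sum_mul]
    rw [Finset.sum_comm]
    refine Finset.sum_congr rfl fun ψ _ => Finset.sum_congr rfl fun u _ => ?_
    rw [LinearMap.add_apply, sgn_add]
    ring
  rw [h1, Finset.sum_eq_single θ]
  · have h2 : ∀ u, (θ + θ) u = 0 := fun u => add_self_mod (θ u)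
    simp only [h2, sgn_zero]
    rw [Finset.sum_const, Finset.card_univ, nsmul_eq_mul, mul_one, mul_comm, mul_assoc,
      mul_inv_cancel₀ hc, mul_one]
  · intro ψ _ hψ
    rw [sum_sgn two_ne, mul_zero]
    intro h0
    refine hψ (LinearMap.ext fun u => ?_)
    have h3 := LinearMap.congr_fun h0 u
    have h5 : ∀ a b : F2, a + b = 0 → a = b := by decide
    exact h5 _ _ h3
  · intro h
    exact absurd (Finset.mem_univ _) h

omit [Fintype H] in
/-- the pseudo-expectation on sums of special characters -/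
theorem Ep_class (h0 : 0 ∈ small') (hadd : ∀ q ∈ small', ∀ q' ∈ small', q + q' ∈ small)
    (hinj : ∀ q ∈ small, (∀ u, q (A u) = 0) → q = 0) (Spec : Set (Dual F2 H))
    (gap : ∀ q ∈ small, (∃ ξ ∈ Spec, ∃ η ∈ Spec, ∀ u, q (A u) = ξ u + η u) → q ∈ small')
    [DecidableEq (Dual F2 H)] :
    ∃ (c : Dual F2 H → Dual F2 H) (δ : Dual F2 H → ℝ), ∀ ξ ∈ Spec, ∀ η ∈ Spec,
      Ep A small' w (ξ + η) = if c ξ = c η then δ ξ * δ η else 0 := by
  classical
  let S : Setoid Spec :=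
    { r := fun ψ φ => ∃ q ∈ small', ∀ u, q (A u) = ψ.1 u + φ.1 u
      iseqv :=
        { refl := fun ψ => ⟨0, h0, fun u => (add_self_mod _).symm⟩
          symm := by
            rintro ψ φ ⟨q, hq, h⟩
            exact ⟨q, hq, fun u => by rw [h, add_comm]⟩
          trans := by
            rintro ψ φ θ ⟨q, hq, h⟩ ⟨q', hq', h'⟩
            have h1 : ∀ u, (q + q') (A u) = ψ.1 u + θ.1 u := by
              intro u
              rw [LinearMap.add_apply, h, h']
              have := add_self_mod (φ.1 u)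
              linear_combination this
            exact ⟨q + q', gap _ (hadd q hq q' hq') ⟨ψ, ψ.2, θ, θ.2, h1⟩, h1⟩ } }
  have hrep : ∀ ψ : Spec, ∃ q ∈ small', ∀ u,
      q (A u) = ψ.1 u + (Quotient.out (Quotient.mk S ψ)).1 u := fun ψ =>
    Setoid.symm (Quotient.mk_out (s := S) ψ)
  choose p hp1 hp2 using hrep
  let c : Dual F2 H → Dual F2 H := fun ψ =>
    if h : ψ ∈ Spec then (Quotient.out (Quotient.mk S ⟨ψ, h⟩)).1 else 0
  let δ : Dual F2 H → ℝ := fun ψ => if h : ψ ∈ Spec then sgn ℝ (p ⟨ψ, h⟩ w) else 1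
  have hc' : ∀ ψ (h : ψ ∈ Spec), c ψ = (Quotient.out (Quotient.mk S ⟨ψ, h⟩)).1 :=
    fun ψ h => dif_pos h
  have hδ' : ∀ ψ (h : ψ ∈ Spec), δ ψ = sgn ℝ (p ⟨ψ, h⟩ w) := fun ψ h => dif_pos h
  refine ⟨c, δ, fun ξ hξ η hη => ?_⟩
  by_cases hc : c ξ = c η
  · rw [if_pos hc, hδ' ξ hξ, hδ' η hη, ← sgn_add]
    rw [hc' ξ hξ, hc' η hη] at hc
    have h1 : ∀ u, (p ⟨ξ, hξ⟩ + p ⟨η, hη⟩) (A u) = ξ u + η u := by
      intro u
      rw [LinearMap.add_apply, hp2, hp2, hc]
      have := add_self_mod ((Quotient.out (Quotient.mk S ⟨η, hη⟩)).1 u)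
      linear_combination this
    have h2 := gap _ (hadd _ (hp1 ⟨ξ, hξ⟩) _ (hp1 ⟨η, hη⟩)) ⟨ξ, hξ, η, hη, h1⟩
    exact Ep_eq hadd hinj h2 h1
  · rw [if_neg hc, Ep, dif_neg]
    rintro ⟨q, hq, h⟩
    refine hc ?_
    have h1 : Quotient.mk S ⟨ξ, hξ⟩ = Quotient.mk S ⟨η, hη⟩ :=
      Quotient.sound (show S.r ⟨ξ, hξ⟩ ⟨η, hη⟩ from ⟨q, hq, h⟩)
    rw [hc' ξ hξ, hc' η hη, h1]

/-- **The pseudo-distribution gives a positive semidefinite matrix.** -/
theorem psd_mu (h0 : 0 ∈ small') (hadd : ∀ q ∈ small', ∀ q' ∈ small', q + q' ∈ small)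
    (hinj : ∀ q ∈ small, (∀ u, q (A u) = 0) → q = 0) [Fintype (Dual F2 H)] {ι : Type} [Fintype ι]
    [DecidableEq ι] (G : H → Matrix ι ι ℝ)
    (gap : ∀ q ∈ small, (∃ ξ ∈ {ξ : Dual F2 H | Sdp G ξ}, ∃ η ∈ {ξ : Dual F2 H | Sdp G ξ},
      ∀ u, q (A u) = ξ u + η u) → q ∈ small') (X₀ : Matrix ι ι ℝ) (hX : X₀.PosSemidef) :
    (∑ u, mu A small' w u • (G u * X₀ * (G u)ᵀ)).PosSemidef := by
  classical
  obtain ⟨c, δ, h⟩ := Ep_class (w := w) h0 hadd hinj {ξ : Dual F2 H | Sdp G ξ} gap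
  refine psd_sum G X₀ hX _ c δ fun ξ η hξ hη => ?_
  rw [mu_sgn]
  exact h ξ hξ η hη

/-- The pseudo-expectation of a function of the left-hand sides of one equation. -/
theorem mu_local (hadd : ∀ q ∈ small', ∀ q' ∈ small', q + q' ∈ small)
    (hinj : ∀ q ∈ small, (∀ u, q (A u) = 0) → q = 0) [Fintype (Dual F2 H)] {Y : Type}
    [AddCommGroup Y] [Module F2 Y] [Fintype Y] (π : W →ₗ[F2] Y) (M : Submodule F2 Y) (D : Y → ℝ)
    (hD : ∀ y, ∀ l ∈ M, D (y + l) = D y)
    (hπ : ∀ h : Dual F2 Y, (∀ l ∈ M, h l = 0) → h.comp π ∈ small') :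
    ∑ u, mu A small' w u * D (π (A u) + π w) = D 0 := by
  classical
  have hfin : Finite (Dual F2 Y) := Finite.of_injective (fun q : Dual F2 Y => (q : Y → F2))
    DFunLike.coe_injective
  have : Fintype (Dual F2 Y) := Fintype.ofFinite _
  have hc : (Fintype.card Y : ℝ) ≠ 0 := card_ne_zero two_ne
  -- the Fourier coefficients
  let Dh : Dual F2 Y → ℝ := fun h => (Fintype.card Y : ℝ)⁻¹ * ∑ z, sgn ℝ (h z) * D z
  have hDh : ∀ h : Dual F2 Y, (¬ ∀ l ∈ M, h l = 0) → Dh h = 0 := by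
    intro h hh
    push Not at hh
    obtain ⟨l, hl, hl'⟩ := hh
    change (Fintype.card Y : ℝ)⁻¹ * ∑ z, sgn ℝ (h z) * D z = 0
    rw [fourier_zero two_ne D h l hl' fun u => hD u l hl, mul_zero]
  have hinv : ∀ y, D y = ∑ h : Dual F2 Y, Dh h * sgn ℝ (h y) := by
    intro y
    have h1 : ∑ h : Dual F2 Y, Dh h * sgn ℝ (h y) =
        (Fintype.card Y : ℝ)⁻¹ * ∑ z, D z * ∑ h : Dual F2 Y, sgn ℝ (h (y + z)) := by
      simp only [Dh, Finset.mul_sum, Finset.sum_mul]
      rw [Finset.sum_comm]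
      refine Finset.sum_congr rfl fun z _ => Finset.sum_congr rfl fun h _ => ?_
      rw [map_add, sgn_add]
      ring
    rw [h1, Finset.sum_eq_single y]
    · have h2 : y + y = 0 := by
        rw [← two_smul F2 y, show (2 : F2) = 0 from rfl, zero_smul]
      rw [h2]
      simp only [map_zero, sgn_zero]
      rw [Finset.sum_const, Finset.card_univ, card_dual, nsmul_eq_mul, mul_one, mul_comm, mul_assoc,
        mul_inv_cancel₀ hc, mul_one]
    · intro z _ hz
      rw [sum_dual_sgn two_ne, mul_zero]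
      intro h0
      refine hz ?_
      have h2 : y + y = 0 := by
        rw [← two_smul F2 y, show (2 : F2) = 0 from rfl, zero_smul]
      exact add_left_cancel (h0.trans h2.symm)
    · intro h
      exact absurd (Finset.mem_univ _) h
  have h1 : ∑ u, mu A small' w u * D (π (A u) + π w) =
      ∑ h : Dual F2 Y, Dh h * (sgn ℝ (h (π w)) * ∑ u, mu A small' w u *
        sgn ℝ (((h.comp π).comp A) u)) := by
    simp only [hinv, Finset.mul_sum]
    rw [Finset.sum_comm]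
    refine Finset.sum_congr rfl fun h _ => Finset.sum_congr rfl fun u _ => ?_
    rw [map_add, sgn_add]
    change mu A small' w u * (Dh h * (sgn ℝ (h (π (A u))) * sgn ℝ (h (π w)))) =
      Dh h * (sgn ℝ (h (π w)) * (mu A small' w u * sgn ℝ (h (π (A u)))))
    ring
  rw [h1, hinv 0]
  refine Finset.sum_congr rfl fun h _ => ?_
  by_cases hh : ∀ l ∈ M, h l = 0
  · rw [mu_sgn, Ep_eq hadd hinj (hπ h hh) (fun u => rfl)]
    change Dh h * (sgn ℝ (h (π w)) * sgn ℝ (h (π w))) = _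
    rw [sgn_mul_self, map_zero, sgn_zero]
  · rw [hDh h hh, zero_mul, zero_mul]

/-- the total mass is one -/
theorem mu_sum (h0 : 0 ∈ small') (hadd : ∀ q ∈ small', ∀ q' ∈ small', q + q' ∈ small)
    (hinj : ∀ q ∈ small, (∀ u, q (A u) = 0) → q = 0) [Fintype (Dual F2 H)] :
    ∑ u, mu A small' w u = 1 := by
  have h1 := mu_sgn (A := A) (small' := small') (w := w) (0 : Dual F2 H)
  rw [Ep_eq hadd hinj h0 (fun u => rfl)] at h1
  have h2 : sgn ℝ ((0 : Dual F2 W) w) = 1 := sgn_zero ℝ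
  rw [h2] at h1
  rw [← h1]
  refine Finset.sum_congr rfl fun u _ => ?_
  have h3 : sgn ℝ ((0 : Dual F2 H) u) = 1 := sgn_zero ℝ
  rw [h3, mul_one]

end Pool.Agent.H5Sdp
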