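import Pool.Agent.H5Lin.Core

/-!
# Representations of elementary abelian 2-groups and positive semidefinite matrices
-/

set_option autoImplicit false

namespace Pool.Agent.H5Sdp

open Matrix Module Pool.Agent.H5Sym Pool.Agent.H5Lin

theorem two_ne : (2 : ℝ) ≠ 0 := two_ne_zero

variable {H : Type} [AddCommGroup H] [Module F2 H] [Fintype H] {ι : Type} [Fintype ι]
  [DecidableEq ι]

/-- the isotypic projections -/
noncomputable def proj (G : H → Matrix ι ι ℝ) (ξ : Dual F2 H) : Matrix ι ι ℝ :=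
  (Fintype.card H : ℝ)⁻¹ • ∑ u, sgn ℝ (ξ u) • G u

/-- the character occurs in the representation -/
def Sdp (G : H → Matrix ι ι ℝ) (ξ : Dual F2 H) : Prop := proj G ξ ≠ 0

variable (G : H → Matrix ι ι ℝ) (hG : ∀ u v, G (u + v) = G u * G v)

include hG in
theorem G_mul_proj (v : H) (ξ : Dual F2 H) : G v * proj G ξ = sgn ℝ (ξ v) • proj G ξ := by
  rw [proj, Matrix.mul_smul, smul_comm (sgn ℝ (ξ v))]
  congr 1
  rw [Finset.mul_sum, Finset.smul_sum]
  have h1 : ∑ u, sgn ℝ (ξ v) • sgn ℝ (ξ u) • G u =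
      ∑ u, sgn ℝ (ξ v) • sgn ℝ (ξ (v + u)) • G (v + u) :=
    (Fintype.sum_equiv (Equiv.addLeft v) _ _ fun u => rfl).symm
  rw [h1]
  refine Finset.sum_congr rfl fun u _ => ?_
  rw [Matrix.mul_smul, ← hG, map_add, sgn_add, smul_smul, ← mul_assoc, sgn_mul_self, one_mul]

include hG in
theorem proj_mul_proj [DecidableEq (Dual F2 H)] (η ξ : Dual F2 H) :
    proj G η * proj G ξ = if η = ξ then proj G ξ else 0 := by
  have h1 : proj G η * proj G ξ =
      ((Fintype.card H : ℝ)⁻¹ * ∑ u, sgn ℝ ((η + ξ) u)) • proj G ξ := by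
    conv_lhs => rw [proj]
    rw [Matrix.smul_mul, Finset.sum_mul, mul_smul, Finset.sum_smul]
    congr 1
    refine Finset.sum_congr rfl fun u _ => ?_
    rw [Matrix.smul_mul, G_mul_proj G hG, smul_smul, LinearMap.add_apply, sgn_add]
  rw [h1]
  have hc : (Fintype.card H : ℝ) ≠ 0 := card_ne_zero two_ne
  split_ifs with h
  · subst h
    have h2 : ∀ u, (η + η) u = 0 := fun u => add_self_mod (η u)
    simp only [h2, sgn_zero]
    rw [Finset.sum_const, Finset.card_univ, nsmul_eq_mul, mul_one, inv_mul_cancel₀ hc, one_smul]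
  · rw [sum_sgn two_ne, mul_zero, zero_smul]
    intro h0
    refine h (LinearMap.ext fun u => ?_)
    have h3 := LinearMap.congr_fun h0 u
    have h5 : ∀ a b : F2, a + b = 0 → a = b := by decide
    exact h5 _ _ h3

theorem G_eq [Fintype (Dual F2 H)] (v : H) : G v = ∑ ξ, sgn ℝ (ξ v) • proj G ξ := by
  have hc : (Fintype.card H : ℝ) ≠ 0 := card_ne_zero two_ne
  have h1 : ∑ ξ, sgn ℝ (ξ v) • proj G ξ =
      (Fintype.card H : ℝ)⁻¹ • ∑ u, (∑ ξ : Dual F2 H, sgn ℝ (ξ (v + u))) • G u := by
    simp only [proj, Finset.smul_sum, Finset.sum_smul]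
    rw [Finset.sum_comm]
    refine Finset.sum_congr rfl fun u _ => ?_
    refine Finset.sum_congr rfl fun ξ _ => ?_
    rw [map_add, sgn_add, smul_smul, smul_smul, smul_smul]
    congr 1
    ring
  rw [h1, Finset.sum_eq_single v]
  · have h2 : v + v = 0 := by
      rw [← two_smul F2 v, show (2 : F2) = 0 from rfl, zero_smul]
    rw [h2]
    simp only [map_zero, sgn_zero]
    rw [Finset.sum_const, Finset.card_univ, card_dual, nsmul_eq_mul, mul_one, smul_smul,
      inv_mul_cancel₀ hc, one_smul]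
  · intro u _ hu
    rw [sum_dual_sgn two_ne, zero_smul]
    intro h0
    refine hu ?_
    have h2 : v + v = 0 := by
      rw [← two_smul F2 v, show (2 : F2) = 0 from rfl, zero_smul]
    exact add_left_cancel (h0.trans h2.symm)
  · intro h
    exact absurd (Finset.mem_univ _) h

include hG in
/-- there are few nonzero projections -/
theorem card_proj : {ξ : Dual F2 H | proj G ξ ≠ 0}.ncard ≤ Fintype.card ι := by
  classical
  have hfin : Finite (Dual F2 H) := Finite.of_injective (fun q : Dual F2 H => (q : H → F2))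
    DFunLike.coe_injective
  have : Fintype (Dual F2 H) := Fintype.ofFinite _
  have h1 : ∀ ξ : {ξ : Dual F2 H | proj G ξ ≠ 0}, ∃ j, proj G ξ.1 *ᵥ Pi.single j 1 ≠ 0 := by
    rintro ⟨ξ, hξ⟩
    by_contra hcon
    push Not at hcon
    refine hξ (Matrix.ext fun i j => ?_)
    have h2 := congrFun (hcon j) i
    simpa using h2
  choose j hj using h1
  have h2 : LinearIndependent ℝ fun ξ : {ξ : Dual F2 H | proj G ξ ≠ 0} =>
      proj G ξ.1 *ᵥ Pi.single (j ξ) 1 := by
    rw [linearIndependent_iff']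
    intro s a ha η hη
    have h3 : proj G η.1 *ᵥ (∑ i ∈ s, a i • proj G i.1 *ᵥ Pi.single (j i) 1) = proj G η.1 *ᵥ 0 := by
      rw [ha]
    rw [mulVec_zero, mulVec_sum, Finset.sum_eq_single η] at h3
    · rw [mulVec_smul, mulVec_mulVec, proj_mul_proj G hG, if_pos rfl] at h3
      exact (smul_eq_zero.1 h3).resolve_right (hj η)
    · intro ξ _ hne
      rw [mulVec_smul, mulVec_mulVec, proj_mul_proj G hG, if_neg, zero_mulVec, smul_zero]
      exact fun h => hne (Subtype.ext h.symm)
    · intro h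
      exact absurd hη h
  have h3 := h2.fintype_card_le_finrank
  rw [Module.finrank_fintype_fun_eq_card] at h3
  rw [← Nat.card_coe_set_eq, Nat.card_eq_fintype_card]
  exact h3

/-- a combination of the translates is positive semidefinite -/
theorem psd_sum [Fintype (Dual F2 H)] [DecidableEq (Dual F2 H)] (X₀ : Matrix ι ι ℝ)
    (hX : X₀.PosSemidef) (μ : H → ℝ) (c : Dual F2 H → Dual F2 H) (δ : Dual F2 H → ℝ)
    (hE : ∀ ξ η, proj G ξ ≠ 0 → proj G η ≠ 0 →
      ∑ u, μ u * sgn ℝ ((ξ + η) u) = if c ξ = c η then δ ξ * δ η else 0) :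
    (∑ u, μ u • (G u * X₀ * (G u)ᵀ)).PosSemidef := by
  let B : Dual F2 H → Matrix ι ι ℝ := fun k => ∑ ξ, (if c ξ = k then δ ξ else 0) • proj G ξ
  have h1 : ∑ u, μ u • (G u * X₀ * (G u)ᵀ) = ∑ k, B k * X₀ * (B k)ᵀ := by
    have e1 : ∀ u, G u * X₀ * (G u)ᵀ = ∑ ξ, ∑ η, sgn ℝ ((ξ + η) u) •
        (proj G ξ * X₀ * (proj G η)ᵀ) := by
      intro u
      conv_lhs => rw [G_eq G u]
      rw [Matrix.transpose_sum, Finset.sum_mul, Finset.sum_mul]
      refine Finset.sum_congr rfl fun ξ _ => ?_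
      rw [Finset.mul_sum]
      refine Finset.sum_congr rfl fun η _ => ?_
      rw [Matrix.transpose_smul, Matrix.smul_mul, Matrix.smul_mul, Matrix.mul_smul, smul_smul,
        LinearMap.add_apply, sgn_add]
    have e2 : ∑ u, μ u • (G u * X₀ * (G u)ᵀ) = ∑ ξ, ∑ η, (∑ u, μ u * sgn ℝ ((ξ + η) u)) •
        (proj G ξ * X₀ * (proj G η)ᵀ) := by
      simp only [e1, Finset.smul_sum, Finset.sum_smul]
      rw [Finset.sum_comm]
      refine Finset.sum_congr rfl fun ξ _ => ?_
      rw [Finset.sum_comm]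
      refine Finset.sum_congr rfl fun η _ => Finset.sum_congr rfl fun u _ => ?_
      rw [smul_smul]
    have e3 : ∑ k, B k * X₀ * (B k)ᵀ = ∑ ξ, ∑ η, (if c ξ = c η then δ ξ * δ η else 0) •
        (proj G ξ * X₀ * (proj G η)ᵀ) := by
      have e4 : ∀ k, B k * X₀ * (B k)ᵀ = ∑ ξ, ∑ η, ((if c ξ = k then δ ξ else 0) *
          (if c η = k then δ η else 0)) • (proj G ξ * X₀ * (proj G η)ᵀ) := by
        intro k
        rw [Matrix.transpose_sum, Finset.sum_mul, Finset.sum_mul]
        refine Finset.sum_congr rfl fun ξ _ => ?_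
        rw [Finset.mul_sum]
        refine Finset.sum_congr rfl fun η _ => ?_
        rw [Matrix.transpose_smul, Matrix.smul_mul, Matrix.smul_mul, Matrix.mul_smul, smul_smul]
      simp only [e4]
      rw [Finset.sum_comm]
      refine Finset.sum_congr rfl fun ξ _ => ?_
      rw [Finset.sum_comm]
      refine Finset.sum_congr rfl fun η _ => ?_
      rw [← Finset.sum_smul]
      congr 1
      rw [Finset.sum_eq_single (c ξ)]
      · rw [if_pos rfl]
        by_cases h : c ξ = c η
        · rw [if_pos h.symm, if_pos h]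
        · rw [if_neg (fun h' => h h'.symm), if_neg h, mul_zero]
      · intro k _ hk
        rw [if_neg (fun h => hk h.symm), zero_mul]
      · intro h
        exact absurd (Finset.mem_univ _) h
    rw [e2, e3]
    refine Finset.sum_congr rfl fun ξ _ => Finset.sum_congr rfl fun η _ => ?_
    by_cases h : proj G ξ = 0
    · rw [h, Matrix.zero_mul, Matrix.zero_mul, smul_zero, smul_zero]
    · by_cases h' : proj G η = 0
      · rw [h', Matrix.transpose_zero, Matrix.mul_zero, smul_zero, smul_zero]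
      · rw [hE ξ η h h']
  rw [h1]
  refine Matrix.posSemidef_sum _ fun k _ => ?_
  have h2 := hX.mul_mul_conjTranspose_same (B k)
  rwa [Matrix.conjTranspose_eq_transpose_of_trivial] at h2

end Pool.Agent.H5Sdp
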