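import Pool.Agent.H5Sdp.Main
import Pool.Agent.H5Dich.ResistEx

/-!
# Equivariant relaxations from arbitrary ones
-/

set_option autoImplicit false

namespace Pool.Agent.H5Sdp

open Matrix Module Pool.Agent.H5Sym Pool.Agent.H5Lin Pool.Agent.H5Dich

variable {Γ : Lang} {V ι : Type} [Fintype ι] [DecidableEq ι]

theorem numCon_flip (u : V → F2) (φ : Con Γ V → Bool) : numCon (φ ∘ flipC u) = numCon φ :=
  Nat.card_congr ((flipC u).subtypeEquiv fun t => Iff.rfl)

theorem numSat_flip (u x : V → F2) (φ : Con Γ V → Bool) :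
    numSat (φ ∘ flipC u) (x + u) = numSat φ x := by
  refine Nat.card_congr ((flipC u).subtypeEquiv fun t => ?_)
  change (φ (flipC u t) = true ∧ (fun k => (x + u) (t.2.1 k) + t.2.2 k) ∈ Γ.rel t.1) ↔
    (φ (flipC u t) = true ∧ (fun k => x (t.2.1 k) + (t.2.2 + u ∘ t.2.1) k) ∈ Γ.rel t.1)
  have h1 : (fun k => (x + u) (t.2.1 k) + t.2.2 k) =
      fun k => x (t.2.1 k) + (t.2.2 + u ∘ t.2.1) k := by
    funext k
    simp only [Pi.add_apply, Function.comp]
    ring
  rw [h1]

/-- a diagonal block -/
def blk {U : Type} (u : U) : Matrix (U × ι) (U × ι) ℝ →ₗ[ℝ] Matrix ι ι ℝ where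
  toFun Y := Y.submatrix (Prod.mk u) (Prod.mk u)
  map_add' _ _ := rfl
  map_smul' _ _ := rfl

omit [Fintype ι] [DecidableEq ι] in
theorem blk_psd {U : Type} (u : U) {Y : Matrix (U × ι) (U × ι) ℝ} (hY : Y.PosSemidef) :
    (blk u Y).PosSemidef := hY.submatrix _

/-- the block diagonal matrix -/
def diagB {U : Type} [DecidableEq U] (M : U → Matrix ι ι ℝ) : Matrix (U × ι) (U × ι) ℝ :=
  Matrix.of fun p q => if p.1 = q.1 then M p.1 p.2 q.2 else 0

omit [Fintype ι] [DecidableEq ι] in
theorem blk_diagB {U : Type} [DecidableEq U] (M : U → Matrix ι ι ℝ) (u : U) :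
    blk u (diagB M) = M u := by
  ext a b
  exact if_pos rfl

theorem diagB_psd {U : Type} [Fintype U] [DecidableEq U] (M : U → Matrix ι ι ℝ)
    (hM : ∀ u, (M u).PosSemidef) : (diagB M).PosSemidef := by
  let E : U → Matrix ι (U × ι) ℝ := fun u => Matrix.of fun a p => if p.1 = u ∧ a = p.2 then 1 else 0
  have h1 : diagB M = ∑ u, (E u)ᴴ * M u * E u := by
    ext p q
    rw [Matrix.sum_apply]
    have h2 : ∀ u, ((E u)ᴴ * M u * E u) p q = if p.1 = u ∧ q.1 = u then M u p.2 q.2 else 0 := by
      intro u
      rw [Matrix.mul_apply]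
      have h3 : ∀ a, ((E u)ᴴ * M u) p a = if p.1 = u then M u p.2 a else 0 := by
        intro a
        rw [Matrix.mul_apply, Finset.sum_eq_single p.2]
        · by_cases h : p.1 = u
          · simp [E, h]
          · simp [E, h]
        · intro b _ hb
          simp [E, hb]
        · intro h
          exact absurd (Finset.mem_univ _) h
      simp only [h3]
      rw [Finset.sum_eq_single q.2]
      · by_cases hp : p.1 = u <;> by_cases hq : q.1 = u <;> simp [E, hp, hq]
      · intro b _ hb
        simp [E, hb]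
      · intro h
        exact absurd (Finset.mem_univ _) h
    simp only [h2]
    by_cases h : p.1 = q.1
    · rw [Finset.sum_eq_single p.1]
      · rw [if_pos ⟨rfl, h.symm⟩]
        exact if_pos h
      · intro u _ hu
        rw [if_neg]
        rintro ⟨h3, -⟩
        exact hu h3.symm
      · intro h
        exact absurd (Finset.mem_univ _) h
    · rw [Finset.sum_eq_zero]
      · exact if_neg h
      · intro u _
        rw [if_neg]
        rintro ⟨h3, h4⟩
        exact h (h3.trans h4.symm)
  rw [h1]
  exact Matrix.posSemidef_sum _ fun u _ => (hM u).conjTranspose_mul_mul_same _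

/-- the average of the flipped relaxations -/
noncomputable def avg (S : SDPRelaxation Γ V ι) (U : Submodule F2 (V → F2)) [Fintype U]
    [DecidableEq U] : SDPRelaxation Γ V (U × ι) where
  space := ⨅ u : U, S.space.comap (blk u).toAffineMap
  point x := diagB fun u => S.point (x + u.1)
  point_mem x := by
    rw [AffineSubspace.mem_iInf_iff]
    intro u
    rw [AffineSubspace.mem_comap]
    change blk u (diagB _) ∈ S.space
    rw [blk_diagB]
    exact S.point_mem _
  point_psd x := diagB_psd _ fun u => S.point_psd _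
  obj φ :=
    { toFun := fun Y => (Fintype.card U : ℝ)⁻¹ * ∑ u : U, S.obj (φ ∘ flipC u.1) (blk u Y)
      linear := (Fintype.card U : ℝ)⁻¹ • ∑ u : U, (S.obj (φ ∘ flipC u.1)).linear ∘ₗ blk u
      map_vadd' := by
        intro Y Z
        simp only [vadd_eq_add, map_add, LinearMap.smul_apply, LinearMap.sum_apply,
          LinearMap.comp_apply, smul_eq_mul]
        rw [← mul_add, ← Finset.sum_add_distrib]
        congr 1
        refine Finset.sum_congr rfl fun u _ => ?_
        have := (S.obj (φ ∘ flipC u.1)).map_vadd (blk u Y) (blk u Z)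
        rwa [vadd_eq_add, vadd_eq_add] at this }
  obj_point φ x := by
    change (Fintype.card U : ℝ)⁻¹ * ∑ u : U, S.obj (φ ∘ flipC u.1) (blk u (diagB _)) = _
    simp only [blk_diagB, S.obj_point, numSat_flip]
    rw [Finset.sum_const, Finset.card_univ, nsmul_eq_mul, inv_mul_cancel_left₀]
    exact_mod_cast Fintype.card_ne_zero

theorem avg_obj (S : SDPRelaxation Γ V ι) (U : Submodule F2 (V → F2)) [Fintype U] [DecidableEq U]
    (φ : Con Γ V → Bool) (Y : Matrix (U × ι) (U × ι) ℝ) :
    (avg S U).obj φ Y = (Fintype.card U : ℝ)⁻¹ * ∑ u : U, S.obj (φ ∘ flipC u.1) (blk u Y) := rfl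

theorem avg_equivariant (S : SDPRelaxation Γ V ι) (U : Submodule F2 (V → F2)) [Fintype U]
    [DecidableEq U] : (avg S U).Equivariant U := by
  let G : U → Matrix (U × ι) (U × ι) ℝ := fun u =>
    Matrix.of fun p q => if q = (p.1 + u, p.2) then 1 else 0
  have hG : ∀ (u : U) (M : Matrix (U × ι) (U × ι) ℝ) p q, (G u * M) p q = M (p.1 + u, p.2) q := by
    intro u M p q
    rw [Matrix.mul_apply, Finset.sum_eq_single (p.1 + u, p.2)]
    · simp [G]
    · intro b _ hb
      simp [G, hb]
    · intro h
      exact absurd (Finset.mem_univ _) h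
  have hG' : ∀ (u : U) (M : Matrix (U × ι) (U × ι) ℝ) p q, (M * (G u)ᵀ) p q = M p (q.1 + u, q.2) := by
    intro u M p q
    rw [Matrix.mul_apply, Finset.sum_eq_single (q.1 + u, q.2)]
    · simp [G]
    · intro b _ hb
      simp [G, hb]
    · intro h
      exact absurd (Finset.mem_univ _) h
  refine ⟨G, fun u v => ?_, fun x u => ?_⟩
  · ext p q
    rw [hG]
    change (if q = (p.1 + (u + v), p.2) then (1 : ℝ) else 0) =
      if q = (p.1 + u + v, p.2) then 1 else 0
    rw [add_assoc]
  · ext p q
    rw [hG', hG]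
    change (if p.1 = q.1 then S.point (x + u.1 + p.1.1) p.2 q.2 else 0) =
      if p.1 + u = q.1 + u then S.point (x + (p.1.1 + u.1)) p.2 q.2 else 0
    have h1 : x + u.1 + p.1.1 = x + (p.1.1 + u.1) := by abel
    rw [h1]
    simp only [add_left_inj]

/-- **Any relaxation can be made equivariant at the cost of a factor `2 ^ dim U`.** -/
theorem upperS [Finite V] (S : SDPRelaxation Γ V ι) (U : Submodule F2 (V → F2)) :
    ∃ (κ : Type) (_ : Fintype κ) (_ : DecidableEq κ) (S' : SDPRelaxation Γ V κ),
      Fintype.card κ = 2 ^ finrank F2 U * Fintype.card ι ∧ S'.Equivariant U ∧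
      (∀ φ b, (∀ u ∈ U, S.ValueLE (φ ∘ flipC u) b) → S'.ValueLE φ b) ∧
      ∀ r : ℝ, (∀ φ : Con Γ V → Bool, Proper φ → ValueLT r φ → S.Below φ (numCon φ)) →
        ∀ φ : Con Γ V → Bool, Proper φ → ValueLT r φ → S'.Below φ (numCon φ) := by
  classical
  have : Finite (V → F2) := Pi.finite
  have : Finite U := Subtype.finite
  have : Fintype U := Fintype.ofFinite U
  have : FiniteDimensional F2 U := Module.Finite.of_finite
  have hc : (0 : ℝ) < Fintype.card U := by exact_mod_cast Fintype.card_pos
  refine ⟨U × ι, inferInstance, inferInstance, avg S U, ?_, avg_equivariant S U,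
    fun φ b h Y hY hp => ?_, fun r h φ hφ1 hφ2 Y hY hp => ?_⟩
  · rw [Fintype.card_prod, Module.card_eq_pow_finrank (K := F2) (V := U), ZMod.card]
  · rw [avg_obj, inv_mul_le_iff₀ hc]
    have h1 : ∀ u : U, S.obj (φ ∘ flipC u.1) (blk u Y) ≤ b := fun u =>
      h u.1 u.2 _ ((AffineSubspace.mem_iInf_iff _ _).1 hY u) (blk_psd u hp)
    calc ∑ u : U, S.obj (φ ∘ flipC u.1) (blk u Y) ≤ ∑ _u : U, b := Finset.sum_le_sum fun u _ => h1 u
      _ = Fintype.card U * b := by rw [Finset.sum_const, Finset.card_univ, nsmul_eq_mul]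
  · rw [avg_obj, inv_mul_lt_iff₀ hc]
    have h1 : ∀ u : U, S.obj (φ ∘ flipC u.1) (blk u Y) < numCon φ := by
      intro u
      have h2 := h (φ ∘ flipC u.1) (proper_flip _ hφ1) (valueLT_flip _ hφ2) _
        ((AffineSubspace.mem_iInf_iff _ _).1 hY u) (blk_psd u hp)
      rwa [numCon_flip] at h2
    calc ∑ u : U, S.obj (φ ∘ flipC u.1) (blk u Y) < ∑ _u : U, (numCon φ : ℝ) :=
          Finset.sum_lt_sum_of_nonempty Finset.univ_nonempty fun u _ => h1 u
      _ = Fintype.card U * numCon φ := by rw [Finset.sum_const, Finset.card_univ, nsmul_eq_mul]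

/-- **Brute force**: the exact relaxation of size `2 ^ n`. -/
theorem bruteS (n : ℕ) : ∃ (κ : Type) (_ : Fintype κ) (_ : DecidableEq κ)
    (S : SDPRelaxation Γ (Fin n) κ), Fintype.card κ = 2 ^ n ∧ (∀ U, S.Equivariant U) ∧
      ∀ φ (b : ℝ), (∀ x, (numSat φ x : ℝ) ≤ b) → S.ValueLE φ b := by
  classical
  let κ := Fin n → F2
  let tr : Matrix κ κ ℝ →ₗ[ℝ] ℝ := Matrix.traceLinearMap κ ℝ ℝ
  let S : SDPRelaxation Γ (Fin n) κ :=
    { space := (AffineSubspace.mk' (1 : ℝ) (⊥ : Submodule ℝ ℝ)).comap tr.toAffineMap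
      point := fun x => Matrix.of fun a b => if a = x ∧ b = x then 1 else 0
      point_mem := by
        intro x
        rw [AffineSubspace.mem_comap, AffineSubspace.mem_mk', Submodule.mem_bot, vsub_eq_sub,
          sub_eq_zero]
        change ∑ a : κ, (if a = x ∧ a = x then (1 : ℝ) else 0) = 1
        rw [Finset.sum_eq_single x]
        · exact if_pos ⟨rfl, rfl⟩
        · intro b _ hb
          exact if_neg fun h => hb h.1
        · intro h
          exact absurd (Finset.mem_univ _) h
      point_psd := by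
        intro x
        have h1 : (Matrix.of fun a b : κ => if a = x ∧ b = x then (1 : ℝ) else 0) =
            Matrix.diagonal (fun a => if a = x then 1 else 0) := by
          ext a b
          rw [Matrix.diagonal_apply, Matrix.of_apply]
          by_cases h1 : a = b
          · subst h1
            simp
          · rw [if_neg h1, if_neg]
            rintro ⟨h2, h3⟩
            exact h1 (h2.trans h3.symm)
        rw [h1]
        refine Matrix.PosSemidef.diagonal fun a => ?_
        change (0 : ℝ) ≤ if a = x then 1 else 0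
        split_ifs <;> norm_num
      obj := fun φ => (∑ x : κ, (numSat φ x : ℝ) • Matrix.entryLinearMap ℝ ℝ x x).toAffineMap
      obj_point := by
        intro φ x
        change (∑ y : κ, (numSat φ y : ℝ) • Matrix.entryLinearMap ℝ ℝ y y) _ = _
        rw [LinearMap.sum_apply, Finset.sum_eq_single x]
        · simp
        · intro y _ hy
          simp [hy]
        · intro h
          exact absurd (Finset.mem_univ _) h }
  refine ⟨κ, inferInstance, inferInstance, S, ?_, fun U => ?_, fun φ b h Y hY hp => ?_⟩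
  · rw [Fintype.card_fun, ZMod.card, Fintype.card_fin]
  · let G : U → Matrix κ κ ℝ := fun u => Matrix.of fun p q => if q = p + u.1 then 1 else 0
    have hG : ∀ (u : U) (M : Matrix κ κ ℝ) p q, (G u * M) p q = M (p + u.1) q := by
      intro u M p q
      rw [Matrix.mul_apply, Finset.sum_eq_single (p + u.1)]
      · simp [G]
      · intro b _ hb
        simp [G, hb]
      · intro h
        exact absurd (Finset.mem_univ _) h
    have hG' : ∀ (u : U) (M : Matrix κ κ ℝ) p q, (M * (G u)ᵀ) p q = M p (q + u.1) := by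
      intro u M p q
      rw [Matrix.mul_apply, Finset.sum_eq_single (q + u.1)]
      · simp [G]
      · intro b _ hb
        simp [G, hb]
      · intro h
        exact absurd (Finset.mem_univ _) h
    refine ⟨G, fun u v => ?_, fun x u => ?_⟩
    · ext p q
      rw [hG]
      change (if q = p + (u.1 + v.1) then (1 : ℝ) else 0) = if q = p + u.1 + v.1 then 1 else 0
      rw [add_assoc]
    · ext p q
      rw [hG', hG]
      change (if p = x + u.1 ∧ q = x + u.1 then (1 : ℝ) else 0) =
        if p + u.1 = x ∧ q + u.1 = x then 1 else 0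
      have h1 : ∀ p : κ, p = x + u.1 ↔ p + u.1 = x := by
        intro p
        constructor
        · rintro rfl
          rw [add_assoc, add_self_mod, add_zero]
        · rintro rfl
          rw [add_assoc, add_self_mod, add_zero]
      simp only [h1]
  · have h1 : Matrix.trace Y = 1 := by
      have h2 : Y ∈ (AffineSubspace.mk' (1 : ℝ) (⊥ : Submodule ℝ ℝ)).comap tr.toAffineMap := hY
      rw [AffineSubspace.mem_comap, AffineSubspace.mem_mk', Submodule.mem_bot, vsub_eq_sub,
        sub_eq_zero] at h2
      exact h2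
    have h3 : S.obj φ Y = ∑ x : κ, (numSat φ x : ℝ) * Y x x := by
      change (∑ y : κ, (numSat φ y : ℝ) • Matrix.entryLinearMap ℝ ℝ y y) Y = _
      rw [LinearMap.sum_apply]
      rfl
    rw [h3]
    calc ∑ x : κ, (numSat φ x : ℝ) * Y x x ≤ ∑ x : κ, b * Y x x :=
          Finset.sum_le_sum fun x _ => mul_le_mul_of_nonneg_right (h x) hp.diag_nonneg
      _ = b := by
        rw [← Finset.mul_sum]
        change b * Matrix.trace Y = b
        rw [h1, mul_one]

end Pool.Agent.H5Sdp
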